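import Mathlib
import Pool.Agent.TH841.PT.Stm4
import Pool.Agent.TH841.PT.Prt
import Pool.Agent.W307.RT.Box
import Pool.Agent.W307.RT.RAT1

/-!
# Project Z8: the average of `2 ^ rank` over the elliptic curves with torsion `Z/2 × Z/8`

Every elliptic curve over `ℚ` with a subgroup `Z/2 × Z/8` is `y² = x (x + u⁴) (x + v⁴)` with
`u = 2 a b`, `v = a² - b²`, `a`, `b` coprime, up to a bounded twist (so `u² + v² = (a² + b²)²`).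
The bad primes divide one of the seven forms `a`, `b` (class 0), `a - b`, `a + b` (class 1),
`a² + b²`, `a² - 2 a b - b²`, `a² + 2 a b - b²` (class 2).
-/

set_option autoImplicit false

namespace Pool.Agent.Y723.Z8

open Finset Pool.Agent.W262.RK Pool.Agent.W307.RT Pool.Agent.TH841.PT

/-! ### The forms -/

/-- the seven forms -/
def F8 (a b : ℤ) (j : Fin 7) : ℤ :=
  ![a, b, a - b, a + b, a ^ 2 + b ^ 2, a ^ 2 - 2 * a * b - b ^ 2, a ^ 2 + 2 * a * b - b ^ 2] j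

/-- the classes -/
def c7 : Fin 7 → Fin 4 := ![0, 0, 1, 1, 2, 2, 2]

/-- the classes of the indices -/
def cls8 (i : Fin 7 × Bool) : Fin 4 := c7 i.1

/-- the bits: the second component of the index says whether `-1` is a nonsquare (for the two forms
where this matters) -/
def e8 (i : Fin 7 × Bool) (_ : Fin 3) : Bool := i.2

/-- the type of the prime `p` for the form `j` -/
def ty8 (j : Fin 7) (p : ℕ) : Bool := decide (5 ≤ j.val ∧ p % 4 = 3)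

/-- the part of `F8 a b j` composed of the primes `p > z` of the given type -/
noncomputable def pr8 (z : ℕ) (a b : ℤ) (i : Fin 7 × Bool) : ℤ :=
  (partN (F8 a b i.1).natAbs (fun p => z < p ∧ ty8 i.1 p = i.2) : ℕ)

/-- the number of the points of the projective line over `𝔽_p`, `p > 2`, where the form `i.1`
vanishes, for the primes of the type `i.2` -/
noncomputable def rr8 (i : Fin 7 × Bool) (p : ℕ) : ℝ :=
  if i.1.val < 4 then (if i.2 then 0 else 1)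
  else if i.1.val = 4 then (if i.2 then 0 else if p % 4 = 1 then 2 else 0)
  else (if i.2 then (if p % 8 = 7 then 2 else 0) else (if p % 8 = 1 then 2 else 0))

/-- `u ⁴ = (2 a b) ⁴` -/
def M8 (a b : ℤ) : ℤ := (2 * a * b) ^ 4

/-- `v ⁴ = (a² - b²) ⁴` -/
def N8 (a b : ℤ) : ℤ := (a ^ 2 - b ^ 2) ^ 4

/-! ### Number theory -/

/-- CHR: the sums over the primes of the real characters modulo 8. -/
def S_CHR : Prop := ∀ κ : ℤ, (κ = -1 ∨ κ = 2 ∨ κ = -2) → ∀ z : ℕ, ∃ C : ℝ, ∀ y : ℕ, z < y →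
  |∑ p ∈ PS z y, Jr κ p / (p : ℝ)| ≤ C

/-- CNT: the number of the coprime pairs with given small prime factors of the forms. -/
def S_CNT : Prop := ∃ z0 : ℕ, ∀ z, z0 ≤ z → ∃ (C : ℝ) (K y0 : ℕ), 0 ≤ C ∧ 1 ≤ K ∧
  ∀ X y Y : ℕ, y0 ≤ y → z < y → y ^ K ≤ X →
  ∀ s ∈ Tup (Fin 7 × Bool) z y, ∀ v ∈ Tup (Fin 7 × Bool) z y, ∀ u ∈ Tup (Fin 7 × Bool) y Y,
  (∏ i, s i * v i * u i) ^ 8 ≤ X →
    (((Box X).filter (fun t : ℤ × ℤ => IsCoprime t.1 t.2 ∧ (∀ j, F8 t.1 t.2 j ≠ 0) ∧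
      S1 z y (pr8 z t.1 t.2) = s ∧ S2 z y (pr8 z t.1 t.2) = v ∧
      ∀ i, (u i : ℤ) ∣ pr8 z t.1 t.2 i)).card : ℝ) ≤
      C * X ^ 2 * (∏ i, gp (rr8 i) 10 (s i)) * (∏ i, gp (rr8 i) 10 (v i) / v i) *
        (∏ i, 2 ^ (u i).primeFactors.card / (u i : ℝ)) / (Real.log y) ^ 7

/-- RNK: the bound of the rank by the local count. -/
def S_RNK : Prop := ∃ z0 : ℕ, ∀ z, z0 ≤ z → ∃ C0 D : ℝ, 0 ≤ C0 ∧ 1 ≤ D ∧
  ∀ (X y k : ℕ) (a b : ℤ), IsCoprime a b → (∀ j, F8 a b j ≠ 0) → a.natAbs ≤ X → b.natAbs ≤ X →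
  1 ≤ X → z < y → X < (y + 1) ^ k →
    (2 : ℝ) ^ Module.finrank ℤ (EAB (-(M8 a b)) (-(N8 a b))).toAffine.Point ≤
      C0 * D ^ k * 4 ^ (∑ i, (S2 z y (pr8 z a b) i).primeFactors.card) *
        NBT cls8 e8 (S1 z y (pr8 z a b))

/-! ### The abstract bound -/

section

variable {ι : Type} [Fintype ι] [DecidableEq ι]

/-- the bound for the free sums, for fixed `z`, `C`, `A` -/
def FSg (σ : ι → ℕ → ℝ) (c z A : ℕ) (C : ℝ) : Prop :=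
  ∀ (y R : ℕ) (W : Finset ι) (ψ φ : ι → ℕ → ℝ) (B : ι → ℝ), z < y → R ≠ 0 →
  (∀ i ∈ W, ψ i 1 = 1) → (∀ i ∈ W, ∀ m n, m * n ∣ PP z y → ψ i (m * n) = ψ i m * ψ i n) →
  (∀ i ∈ W, ∀ p, |φ i p| ≤ 1) → (∀ i ∈ W, ∀ p ∈ PS z y, ¬ p ∣ R → ψ i p = φ i p) →
  (∀ i ∈ W, ∑ p ∈ PS z y, σ i p * φ i p / (p : ℝ) ≤ B i) →
    |∑ d ∈ (Tup ι z y).filter (fun d => (∀ i, (d i).Coprime R) ∧ ∀ i, i ∉ W → d i = 1),
      ∏ i ∈ W, (gp (σ i) c (d i) * ψ i (d i))| ≤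
      C * Real.exp (∑ i ∈ W, B i) * ∏ p ∈ R.primeFactors, (1 + (A : ℝ) / (p : ℝ))

end

/-- FSG: the bound for the free sums with signed weights. -/
def S_FSG : Prop := ∀ (ι : Type) [Fintype ι] [DecidableEq ι] (c : ℕ), ∃ z0 A : ℕ, ∀ z, z0 ≤ z →
  ∃ C : ℝ, 1 ≤ C ∧ ∀ σ : ι → ℕ → ℝ, (∀ i p, |σ i p| ≤ 1 / 2) → FSg σ c z A C

/-- RATS: the refined abstract bound with signed weights. The indices of `N` have signed weights
whose sums over the primes are bounded. -/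
def S_RATS : Prop := ∀ (ι : Type) [Fintype ι] [DecidableEq ι] (w : ι → ℝ) (L : ι → ι → Bool)
  (c : ℕ) (K : ℝ) (N : Finset ι), (∀ i, 0 < w i) → (∀ i, L i i = false) →
  (∀ n ∈ N, ∀ m ∈ N, L n m = false) →
  (∀ i ∈ QN L N, ∀ j ∈ QN L N, L i j = false) → ∑ i ∈ QN L N, w i ≤ K →
  (∀ U : Finset ι, (∀ i ∈ U, ∀ j ∈ U, L i j = L j i) → (∃ k ∈ U, k ∉ N ∧ k ∉ QN L N) →
    ∑ i ∈ U, w i ≤ K) →
  (∀ b, b ∉ N → b ∉ QN L N →
    ∑ i ∈ (QN L N ∪ N).filter (fun i => L i b = L b i), w i < K) →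
  ∃ z0 : ℕ, ∀ z, z0 ≤ z → ∀ (σ g : ι → ℕ → ℝ) (C0 : ℝ),
    (∀ i p, |σ i p| ≤ g i p ∧ g i p ≤ 1 / 2) →
    (∀ i y, z < y → |Sp (g i) z y - w i * Real.log (Real.log y)| ≤ C0) →
    (∀ n ∈ N, ∀ y, z < y → Sp (σ n) z y ≤ C0) →
    (∀ (i : ι) (y r : ℕ) (e : Bool), z < y → 1 < r → Squarefree r →
      (∀ p : ℕ, p.Prime → p ∣ r → z < p) →
      ∑ p ∈ PS z y, σ i p * (Jr p r * x4 e p) / (p : ℝ) ≤ Real.log (Real.log r) + C0) →
    ∃ C : ℝ, ∀ y, z < y →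
      |∑ d ∈ Tup ι z y, (∏ i, gp (σ i) c (d i)) * Sym L (fun _ => 1) d| ≤
        C * (Real.log y) ^ K

/-! ### The main average -/

/-- the indices of the letters -/
abbrev I8 : Type := I4 c7 × Bool

/-- the exceptional letters: the forms 5, 6, `v ≠ 0`, `χ ≠ 0` -/
def N8s : Finset I8 := univ.filter (fun i => 5 ≤ i.1.1.1.val ∧ i.1.1.2.1 ≠ (false, false) ∧
  i.1.1.2.2 ≠ (false, false))

/-- the symbols of the letters -/
def L8 (i i' : I8) : Bool := L4 c7 i.1 i'.1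

/-- CMB: the conditions of `S_RATS` for `w = 1 / 4`, `K = 7`. -/
def S_CMB : Prop :=
  (∀ i, L8 i i = false) ∧ (∀ n ∈ N8s, ∀ m ∈ N8s, L8 n m = false) ∧
  (∀ i ∈ QN L8 N8s, ∀ j ∈ QN L8 N8s, L8 i j = false) ∧
  ∑ _i ∈ QN L8 N8s, (1 / 4 : ℝ) ≤ 7 ∧
  (∀ U : Finset I8, (∀ i ∈ U, ∀ j ∈ U, L8 i j = L8 j i) →
    (∃ k ∈ U, k ∉ N8s ∧ k ∉ QN L8 N8s) → ∑ _i ∈ U, (1 / 4 : ℝ) ≤ 7) ∧
  ∀ b, b ∉ N8s → b ∉ QN L8 N8s →
    ∑ _i ∈ (QN L8 N8s ∪ N8s).filter (fun i => L8 i b = L8 b i), (1 / 4 : ℝ) < 7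

/-- the signed weights of the letters -/
noncomputable def s8 (i : I8) (p : ℕ) : ℝ :=
  (rr8 (i.1.1.1, false) p + (if i.1.1.2.1 = (false, false) ∨ i.1.1.2.2 = (false, false) then 1
    else -1) * rr8 (i.1.1.1, true) p) / 4

/-- the absolute weights of the letters -/
noncomputable def g8 (i : I8) (p : ℕ) : ℝ :=
  (rr8 (i.1.1.1, false) p + rr8 (i.1.1.1, true) p) / 4

/-- EXP: expansion of the average of the local count into symbols. -/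
def S_EXP : Prop := ∀ z y : ℕ, 2 ≤ z →
  ∑ s ∈ Tup (Fin 7 × Bool) z y, NBT cls8 e8 s * ∏ i, gp (rr8 i) 10 (s i) =
    ∑ d ∈ Tup I8 z y, (∏ i, gp (s8 i) 10 (d i)) * Sym L8 (fun _ => 1) d

/-- WGT: the sums of the weights over the primes. -/
def S_WGT : Prop := ∀ z : ℕ, 10 ≤ z → ∃ C0 : ℝ,
  (∀ (i : I8) (y : ℕ), z < y → |Sp (g8 i) z y - 1 / 4 * Real.log (Real.log y)| ≤ C0) ∧
  (∀ n ∈ N8s, ∀ y, z < y → Sp (s8 n) z y ≤ C0) ∧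
  (∀ (i : I8) (y r : ℕ) (e : Bool), z < y → 1 < r → Squarefree r →
    (∀ p : ℕ, p.Prime → p ∣ r → z < p) →
    ∑ p ∈ PS z y, s8 i p * (Jr p r * x4 e p) / (p : ℝ) ≤ Real.log (Real.log r) + C0)

/-- MAK: the main average. -/
def S_MAK : Prop := ∃ z0 : ℕ, ∀ z, z0 ≤ z → ∃ C : ℝ, ∀ y, z < y →
  ∑ s ∈ Tup (Fin 7 × Bool) z y, NBT cls8 e8 s * ∏ i, gp (rr8 i) 10 (s i) ≤
    C * (Real.log y) ^ 7

/-! ### The averages -/

/-- AVG: the average over the box. -/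
def S_AVG : Prop := ∃ C : ℝ, 0 ≤ C ∧ ∀ T : ℕ, 1 ≤ T → ∑ t ∈ (Box T).filter (fun t : ℤ × ℤ =>
    IsCoprime t.1 t.2 ∧ M8 t.1 t.2 ≠ 0 ∧ N8 t.1 t.2 ≠ 0 ∧ M8 t.1 t.2 ≠ N8 t.1 t.2),
    (2 : ℝ) ^ Module.finrank ℤ (EAB (-(M8 t.1 t.2)) (-(N8 t.1 t.2))).toAffine.Point ≤
      C * (T : ℝ) ^ 2

/-- PAR: parametrisation of the curves with a subgroup `Z/2 × Z/8`. -/
def S_PAR : Prop := PAR 8 48 M8 N8

/-- LOW: there are many curves with a subgroup `Z/2 × Z/8`. -/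
def S_LOW : Prop := LOW 8 48

/-- the main theorem -/
def S_MAIN : Prop := ∃ C : ℝ, ∀ H : ℕ, ∑ c ∈ Cv 8 H,
    (2 : ℝ) ^ Module.finrank ℤ (Sh c.1 c.2).toAffine.Point ≤ C * (Cv 8 H).card

theorem main_of (h1 : S_AVG) (h2 : S_PAR) (h3 : S_LOW) : S_MAIN :=
  final_of (by norm_num) h2 h3 h1

end Pool.Agent.Y723.Z8
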