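import Mathlib
import Pool.Agent.Y723.Z8.Stm
import Pool.Agent.W216.RT.UB4
import Pool.Agent.TH841.PT.Fin1

/-! Project Z8: the sums of the real characters modulo 8 over the primes (upper bounds adapted from
`W216/RT/UB4.lean`; lower bounds from the number of the roots of `X² - κ`). -/

set_option autoImplicit false

namespace Pool.Agent.Y723.Z8.Chr

open Finset Filter Topology Polynomial
open Pool.Agent.W262.RK Pool.Agent.W586.RK.UB Pool.Agent.TH841.PT

theorem mainU {fx : ℕ →*₀ ℝ} {N : ℕ} (hN : 1 ≤ N) (fx_abs : ∀ n, |fx n| ≤ 1)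
    (fx_per : Function.Periodic fx N) (fx_sum : ∑ n ∈ range N, fx n = 0) :
    ∃ C : ℝ, ∀ y : ℕ, 3 ≤ y → ∑ p ∈ (Icc 1 y).filter Nat.Prime, fx p / (p : ℝ) ≤ C := by
  obtain ⟨C1, hC1⟩ := Pool.Agent.Helper256.KM.mertens_log
  obtain ⟨C2, hC2⟩ := Pool.Agent.Helper256.KM.mertens_inv
  have hC10 : 0 ≤ C1 := (abs_nonneg _).trans (hC1 1 le_rfl)
  set K : ℝ := Real.log ((N : ℕ) : ℝ) + 2 with hK
  have hlogN : 0 ≤ Real.log ((N : ℕ) : ℝ) := Real.log_nonneg (by exact_mod_cast hN)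
  have hK0 : 0 < K := by linarith
  have hl3 : 1 ≤ Real.log 3 := by
    rw [Real.le_log_iff_exp_le (by norm_num)]
    linarith [Real.exp_one_lt_d9]
  refine ⟨Real.log 2 + Real.log K + C2 + 2 + 2 * C1, ?_⟩
  intro y hy3
  have hLy : 1 ≤ Real.log y :=
    hl3.trans (Real.log_le_log (by norm_num) (by exact_mod_cast hy3))
  set s : ℝ := 1 / Real.log y with hs
  have hLy0 : 0 < Real.log y := by linarith
  have hs0 : 0 < s := by positivity
  have hs1 : s ≤ 1 := by rw [hs, div_le_one hLy0]; exact hLy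
  set T : Finset Nat.Primes := Finset.subtype Nat.Prime (Icc 1 y) with hT
  have hconv : ∀ g : ℕ → ℝ, ∑ p ∈ T, g (p : ℕ) = ∑ p ∈ (Icc 1 y).filter Nat.Prime, g p := by
    intro g
    exact Finset.sum_subtype_eq_sum_filter (s := Icc 1 y) (p := Nat.Prime) g
  obtain ⟨hsum, hEL⟩ := euler_lower fx fx_abs s hs0 hs1 T
  have hLb := L_bound hN fx_abs fx_per fx_sum s hs0 hsum
  rw [← hK] at hLb
  have h2s : 2 / s = 2 * Real.log y := by
    rw [hs]; field_simp
  rw [h2s] at hEL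
  have h1 : ∑ p ∈ T, (1 + fx (p : ℕ)) * ((p : ℕ) : ℝ) ^ (-(1 + s)) ≤
      Real.log 2 + Real.log (Real.log y) + Real.log K := by
    have h2 := hEL.trans (mul_le_mul_of_nonneg_left hLb (by positivity))
    rw [← Real.log_mul (by positivity) (by linarith),
      ← Real.log_mul (by positivity) hK0.ne']
    rw [Real.le_log_iff_exp_le (by positivity)]
    exact h2
  have h3 : ∑ p ∈ T, (1 + fx (p : ℕ)) * ((p : ℕ) : ℝ) ^ (-(1 + s)) ≥
      ∑ p ∈ (Icc 1 y).filter Nat.Prime, ((1 : ℝ) / p + fx p / p - 2 * s * (Real.log p / p)) := by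
    rw [ge_iff_le, ← hconv (fun p => (1 : ℝ) / p + fx p / p - 2 * s * (Real.log p / p))]
    refine sum_le_sum fun p _ => ?_
    have hp1 : (1 : ℝ) < ((p : ℕ) : ℝ) := by exact_mod_cast p.2.one_lt
    have hp0 : (0 : ℝ) < ((p : ℕ) : ℝ) := by linarith
    have hlp : 0 < Real.log ((p : ℕ) : ℝ) := Real.log_pos hp1
    have h4 : ((p : ℕ) : ℝ) ^ (-(1 + s)) = ((p : ℕ) : ℝ) ^ (-s) / (p : ℕ) := by
      rw [show -(1 + s) = -s - 1 by ring, Real.rpow_sub hp0, Real.rpow_one]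
    have h5 : 1 - s * Real.log ((p : ℕ) : ℝ) ≤ ((p : ℕ) : ℝ) ^ (-s) := by
      rw [Real.rpow_def_of_pos hp0]
      have := Real.add_one_le_exp (Real.log ((p : ℕ) : ℝ) * -s)
      linarith
    have h6 := abs_le.1 (fx_abs p)
    have h7 : (1 + fx (p : ℕ)) * (1 - s * Real.log ((p : ℕ) : ℝ)) ≤
        (1 + fx (p : ℕ)) * ((p : ℕ) : ℝ) ^ (-s) := mul_le_mul_of_nonneg_left h5 (by linarith)
    have h8 : (1 + fx (p : ℕ)) * (s * Real.log ((p : ℕ) : ℝ)) ≤ 2 * (s * Real.log ((p : ℕ) : ℝ)) :=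
      mul_le_mul_of_nonneg_right (by linarith) (by positivity)
    have h9 : (1 + fx (p : ℕ) - 2 * (s * Real.log ((p : ℕ) : ℝ))) ≤
        (1 + fx (p : ℕ)) * ((p : ℕ) : ℝ) ^ (-s) := by linarith
    calc (1 : ℝ) / (p : ℕ) + fx p / (p : ℕ) - 2 * s * (Real.log (p : ℕ) / (p : ℕ))
        = (1 + fx (p : ℕ) - 2 * (s * Real.log ((p : ℕ) : ℝ))) / (p : ℕ) := by ring
      _ ≤ ((1 + fx (p : ℕ)) * ((p : ℕ) : ℝ) ^ (-s)) / (p : ℕ) :=
          div_le_div_of_nonneg_right h9 hp0.le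
      _ = _ := by rw [h4]; ring
  rw [sum_sub_distrib, sum_add_distrib, ← mul_sum] at h3
  have h10 := (abs_le.1 (hC2 y hy3)).1
  have h11 := (abs_le.1 (hC1 y (by omega))).2
  have h12 : 2 * s * ∑ p ∈ (Icc 1 y).filter Nat.Prime, Real.log p / p ≤ 2 + 2 * C1 := by
    have h13 : 2 * s * ∑ p ∈ (Icc 1 y).filter Nat.Prime, Real.log p / p ≤
        2 * s * (Real.log y + C1) := mul_le_mul_of_nonneg_left (by linarith) (by positivity)
    have h14 : 2 * s * (Real.log y + C1) = 2 + 2 * (s * C1) := by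
      rw [hs]; field_simp
    have h15 : s * C1 ≤ 1 * C1 := mul_le_mul_of_nonneg_right hs1 hC10
    linarith
  linarith


theorem subU {fx : ℕ → ℝ} (fx_abs : ∀ n, |fx n| ≤ 1)
    (h : ∃ C : ℝ, ∀ y : ℕ, 3 ≤ y → ∑ p ∈ (Icc 1 y).filter Nat.Prime, fx p / (p : ℝ) ≤ C) (z : ℕ) :
    ∃ C : ℝ, ∀ y, z < y → ∑ p ∈ PS z y, fx p / (p : ℝ) ≤ C := by
  obtain ⟨C, hC⟩ := h
  refine ⟨|C| + z + 3, ?_⟩
  intro y hzy
  have hb : ∀ p : ℕ, 1 ≤ p → |fx p / (p : ℝ)| ≤ 1 := by
    intro p hp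
    have hp0 : (1 : ℝ) ≤ p := by exact_mod_cast hp
    rw [abs_div, abs_of_pos (by linarith : (0 : ℝ) < p), div_le_one (by linarith)]
    exact (fx_abs p).trans hp0
  rcases Nat.lt_or_ge y 3 with hy | hy
  · have h1 : ∑ p ∈ PS z y, fx p / (p : ℝ) ≤ ∑ p ∈ PS z y, (1 : ℝ) := by
      apply sum_le_sum
      intro p hp
      simp only [PS, mem_filter, mem_Ioc] at hp
      exact (abs_le.1 (hb p (by omega))).2
    have h2 : (PS z y).card ≤ y := by
      unfold PS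
      refine (card_filter_le _ _).trans ?_
      simp
    have h3 : ((PS z y).card : ℝ) ≤ 2 := by
      have : (PS z y).card ≤ 2 := by omega
      exact_mod_cast this
    simp only [sum_const, nsmul_eq_mul, mul_one] at h1
    have := abs_nonneg C
    have : (0 : ℝ) ≤ z := Nat.cast_nonneg z
    linarith
  · have hmain := hC y hy
    have hsplit : ∑ p ∈ (Icc 1 y).filter Nat.Prime, fx p / (p : ℝ) =
        ∑ p ∈ (Icc 1 z).filter Nat.Prime, fx p / (p : ℝ) + ∑ p ∈ PS z y, fx p / (p : ℝ) := by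
      rw [← sum_union]
      · refine sum_congr ?_ fun _ _ => rfl
        ext p
        simp only [PS, mem_union, mem_filter, mem_Icc, mem_Ioc]
        constructor
        · rintro ⟨⟨h1, h2⟩, h3⟩
          rcases Nat.lt_or_ge z p with h4 | h4
          · right; exact ⟨⟨h4, h2⟩, h3⟩
          · left; exact ⟨⟨h1, h4⟩, h3⟩
        · rintro (⟨⟨h1, h2⟩, h3⟩ | ⟨⟨h1, h2⟩, h3⟩)
          · exact ⟨⟨h1, by omega⟩, h3⟩
          · exact ⟨⟨by omega, h2⟩, h3⟩
      · rw [Finset.disjoint_left]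
        intro p h1 h2
        simp only [PS, mem_filter, mem_Icc, mem_Ioc] at h1 h2
        omega
    have hsmall : -(z : ℝ) ≤ ∑ p ∈ (Icc 1 z).filter Nat.Prime, fx p / (p : ℝ) := by
      have h16 : ∀ p ∈ (Icc 1 z).filter Nat.Prime, (-1 : ℝ) ≤ fx p / (p : ℝ) := by
        intro p hp
        rw [mem_filter, mem_Icc] at hp
        exact (abs_le.1 (hb p hp.1.1)).1
      have h17 := Finset.card_nsmul_le_sum _ _ _ h16
      have h18 : ((Icc 1 z).filter Nat.Prime).card ≤ z := by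
        refine (card_filter_le _ _).trans ?_
        simp
      have h19 : (((Icc 1 z).filter Nat.Prime).card : ℝ) ≤ z := by exact_mod_cast h18
      rw [nsmul_eq_mul] at h17
      linarith
    have := le_abs_self C
    linarith


/-- the character `(2 / n)` -/
noncomputable def f8 : ℕ →*₀ ℝ where
  toFun n := ((ZMod.χ₈ (n : ZMod 8) : ℤ) : ℝ)
  map_zero' := by simp
  map_one' := by simp
  map_mul' m n := by push_cast; rw [map_mul, Int.cast_mul]

/-- the character `(-2 / n)` -/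
noncomputable def f8' : ℕ →*₀ ℝ where
  toFun n := ((ZMod.χ₈' (n : ZMod 8) : ℤ) : ℝ)
  map_zero' := by simp
  map_one' := by simp
  map_mul' m n := by push_cast; rw [map_mul, Int.cast_mul]

theorem f8_apply (n : ℕ) : f8 n = ((ZMod.χ₈ (n : ZMod 8) : ℤ) : ℝ) := rfl

theorem f8'_apply (n : ℕ) : f8' n = ((ZMod.χ₈' (n : ZMod 8) : ℤ) : ℝ) := rfl

theorem f8_abs (n : ℕ) : |f8 n| ≤ 1 := by
  have h : ∀ a : ZMod 8, |ZMod.χ₈ a| ≤ 1 := by decide
  rw [f8_apply]
  exact_mod_cast h (n : ZMod 8)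

theorem f8'_abs (n : ℕ) : |f8' n| ≤ 1 := by
  have h : ∀ a : ZMod 8, |ZMod.χ₈' a| ≤ 1 := by decide
  rw [f8'_apply]
  exact_mod_cast h (n : ZMod 8)

theorem f8_per : Function.Periodic f8 8 := by
  intro n
  rw [f8_apply, f8_apply]
  have : ((n + 8 : ℕ) : ZMod 8) = (n : ZMod 8) := by
    push_cast
    rw [show (8 : ZMod 8) = 0 from rfl]
    ring
  rw [this]

theorem f8'_per : Function.Periodic f8' 8 := by
  intro n
  rw [f8'_apply, f8'_apply]
  have : ((n + 8 : ℕ) : ZMod 8) = (n : ZMod 8) := by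
    push_cast
    rw [show (8 : ZMod 8) = 0 from rfl]
    ring
  rw [this]

theorem f8_sum : ∑ n ∈ range 8, f8 n = 0 := by
  simp only [f8_apply]
  have : ∑ n ∈ range 8, (ZMod.χ₈ (n : ZMod 8) : ℤ) = 0 := by decide
  exact_mod_cast this

theorem f8'_sum : ∑ n ∈ range 8, f8' n = 0 := by
  simp only [f8'_apply]
  have : ∑ n ∈ range 8, (ZMod.χ₈' (n : ZMod 8) : ℤ) = 0 := by decide
  exact_mod_cast this

lemma Jr_two {p : ℕ} (hp : Odd p) : Jr 2 p = f8 p := by
  unfold Jr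
  rw [jacobiSym.at_two hp, f8_apply]

lemma Jr_neg_two {p : ℕ} (hp : Odd p) : Jr (-2) p = f8' p := by
  unfold Jr
  rw [jacobiSym.at_neg_two hp, f8'_apply]

lemma Jr_neg_one {p : ℕ} (hp : Odd p) : Jr (-1) p = x4 true p := by
  unfold Jr x4
  rw [jacobiSym.at_neg_one hp, if_pos rfl]

/-- the upper bounds -/
theorem up (κ : ℤ) (hκ : κ = -1 ∨ κ = 2 ∨ κ = -2) (z : ℕ) (hz : 2 ≤ z) :
    ∃ C : ℝ, ∀ y, z < y → ∑ p ∈ PS z y, Jr κ p / (p : ℝ) ≤ C := by
  have hodd : ∀ y, ∀ p ∈ PS z y, Odd p := by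
    intro y p hp
    unfold PS at hp
    rw [mem_filter, mem_Ioc] at hp
    exact hp.2.odd_of_ne_two (by omega)
  rcases hκ with rfl | rfl | rfl
  · obtain ⟨C, hC⟩ := Pool.Agent.W216.RT.UB4.ub4 z
    refine ⟨C, fun y hy => (le_of_eq ?_).trans (hC y hy)⟩
    exact sum_congr rfl fun p hp => by rw [Jr_neg_one (hodd y p hp)]
  · obtain ⟨C, hC⟩ := subU f8_abs (mainU (by norm_num) f8_abs f8_per f8_sum) z
    refine ⟨C, fun y hy => (le_of_eq ?_).trans (hC y hy)⟩
    exact sum_congr rfl fun p hp => by rw [Jr_two (hodd y p hp)]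
  · obtain ⟨C, hC⟩ := subU f8'_abs (mainU (by norm_num) f8'_abs f8'_per f8'_sum) z
    refine ⟨C, fun y hy => (le_of_eq ?_).trans (hC y hy)⟩
    exact sum_congr rfl fun p hp => by rw [Jr_neg_two (hodd y p hp)]

/-- the number of the roots of `X² - κ` modulo `p` -/
lemma rho_eq (κ : ℤ) {p : ℕ} (hp : p.Prime) (hp2 : p ≠ 2) :
    (Pool.Agent.H474R2.PG.rho (X ^ 2 - C κ) p : ℝ) = 1 + Jr κ p := by
  haveI : Fact p.Prime := ⟨hp⟩
  haveI : NeZero p := ⟨hp.ne_zero⟩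
  have h3 := legendreSym.card_sqrts p hp2 κ
  have h4 : Pool.Agent.H474R2.PG.rho (X ^ 2 - C κ) p =
      {x : ZMod p | x ^ 2 = (κ : ZMod p)}.toFinset.card := by
    unfold Pool.Agent.H474R2.PG.rho
    have hiff : ∀ a : ℕ, (p : ℤ) ∣ (X ^ 2 - C κ : ℤ[X]).eval (a : ℤ) ↔
        ((a : ZMod p)) ^ 2 = (κ : ZMod p) := by
      intro a
      rw [eval_sub, eval_pow, eval_X, eval_C, ← ZMod.intCast_zmod_eq_zero_iff_dvd]
      push_cast
      rw [sub_eq_zero]
    refine Finset.card_nbij' (fun a => (a : ZMod p)) (fun x => x.val) ?_ ?_ ?_ ?_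
    · intro a ha
      rw [mem_coe, mem_filter] at ha
      simp only [Set.coe_toFinset, Set.mem_setOf_eq]
      exact (hiff a).1 ha.2
    · intro x hx
      simp only [Set.coe_toFinset, Set.mem_setOf_eq] at hx
      rw [mem_coe, mem_filter, mem_range]
      refine ⟨ZMod.val_lt x, (hiff _).2 ?_⟩
      rw [ZMod.natCast_zmod_val]
      exact hx
    · intro a ha
      rw [mem_coe, mem_filter, mem_range] at ha
      exact ZMod.val_cast_of_lt ha.1
    · intro x _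
      exact ZMod.natCast_zmod_val x
  rw [h4]
  have h5 : (({x : ZMod p | x ^ 2 = (κ : ZMod p)}.toFinset.card : ℤ) : ℝ) =
      ((legendreSym p κ + 1 : ℤ) : ℝ) := by rw [h3]
  unfold Jr
  rw [← jacobiSym.legendreSym.to_jacobiSym]
  push_cast at h5 ⊢
  linarith

/-- the lower bounds -/
theorem low (κ : ℤ) (hκ : κ ≠ 0) (z : ℕ) (hz : 2 ≤ z) :
    ∃ C : ℝ, ∀ y, z < y → -C ≤ ∑ p ∈ PS z y, Jr κ p / (p : ℝ) := by
  have hmap : (X ^ 2 - C κ : ℤ[X]).map (Int.castRingHom ℚ) = X ^ 2 - C (κ : ℚ) := by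
    simp
  have hsq : Squarefree ((X ^ 2 - C κ : ℤ[X]).map (Int.castRingHom ℚ)) := by
    rw [hmap]
    apply Polynomial.Separable.squarefree
    exact Polynomial.separable_X_pow_sub_C (κ : ℚ) (by norm_num) (by exact_mod_cast hκ)
  have hdeg : 0 < (X ^ 2 - C κ : ℤ[X]).natDegree := by
    rw [Polynomial.natDegree_X_pow_sub_C]
    norm_num
  obtain ⟨C1, hC1⟩ := LWPf.lwp_of fact (X ^ 2 - C κ) hsq hdeg z
  obtain ⟨C2, hC20, hC2⟩ := Pool.Agent.W655.RK.mertens
  refine ⟨C1 + C2, fun y hy => ?_⟩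
  have h1 := hC1 y hy
  have h2 := hC2 z y (by omega)
  have h3 : Sp (fun p => (Pool.Agent.H474R2.PG.rho (X ^ 2 - C κ) p : ℝ)) z y =
      ∑ p ∈ PS z y, (1 : ℝ) / p + ∑ p ∈ PS z y, Jr κ p / (p : ℝ) := by
    unfold Sp
    rw [← sum_add_distrib]
    apply sum_congr rfl
    intro p hp
    unfold PS at hp
    rw [mem_filter, mem_Ioc] at hp
    simp only
    rw [rho_eq κ hp.2 (by omega)]
    ring
  rw [h3] at h1
  linarith

lemma abs_term (κ : ℤ) {p : ℕ} (hp : 1 ≤ p) : |Jr κ p / (p : ℝ)| ≤ 1 := by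
  have hp0 : (1 : ℝ) ≤ p := by exact_mod_cast hp
  rw [abs_div, abs_of_pos (by linarith : (0 : ℝ) < p), div_le_one (by linarith)]
  exact (Pool.Agent.W262.RK.abs_Jr_le κ p).trans hp0

theorem chr : S_CHR := by
  intro κ hκ z
  have hκ0 : κ ≠ 0 := by rcases hκ with rfl | rfl | rfl <;> norm_num
  obtain ⟨C1, hC1⟩ := up κ hκ (z + 2) (by omega)
  obtain ⟨C2, hC2⟩ := low κ hκ0 (z + 2) (by omega)
  refine ⟨|C1| + |C2| + 2, fun y hy => ?_⟩
  have hsm : ∀ y', y' ≤ z + 2 → |∑ p ∈ PS z y', Jr κ p / (p : ℝ)| ≤ 2 := by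
    intro y' hy'
    refine (abs_sum_le_sum_abs _ _).trans ?_
    calc ∑ p ∈ PS z y', |Jr κ p / (p : ℝ)| ≤ ∑ p ∈ PS z y', (1 : ℝ) := by
          apply sum_le_sum
          intro p hp
          unfold PS at hp
          rw [mem_filter, mem_Ioc] at hp
          exact abs_term κ (by omega)
      _ = (PS z y').card := by simp
      _ ≤ 2 := by
          have : (PS z y').card ≤ 2 := by
            unfold PS
            refine (card_filter_le _ _).trans ?_
            rw [Nat.card_Ioc]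
            omega
          exact_mod_cast this
  rcases Nat.lt_or_ge (z + 2) y with h | h
  · have hsplit : ∑ p ∈ PS z y, Jr κ p / (p : ℝ) =
        ∑ p ∈ PS z (z + 2), Jr κ p / (p : ℝ) + ∑ p ∈ PS (z + 2) y, Jr κ p / (p : ℝ) := by
      rw [← sum_union]
      · refine sum_congr ?_ fun _ _ => rfl
        ext p
        simp only [PS, mem_union, mem_filter, mem_Ioc]
        constructor
        · rintro ⟨⟨h1, h2⟩, h3⟩
          rcases Nat.lt_or_ge (z + 2) p with h4 | h4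
          · right; exact ⟨⟨h4, h2⟩, h3⟩
          · left; exact ⟨⟨h1, h4⟩, h3⟩
        · rintro (⟨⟨h1, h2⟩, h3⟩ | ⟨⟨h1, h2⟩, h3⟩)
          · exact ⟨⟨h1, by omega⟩, h3⟩
          · exact ⟨⟨by omega, h2⟩, h3⟩
      · rw [Finset.disjoint_left]
        intro p h1 h2
        simp only [PS, mem_filter, mem_Ioc] at h1 h2
        omega
    rw [hsplit]
    have h1 := hC1 y h
    have h2 := hC2 y h
    have h3 := abs_le.1 (hsm (z + 2) le_rfl)
    have h4 := le_abs_self C1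
    have h5 := le_abs_self C2
    have h6 := abs_nonneg C1
    have h7 := abs_nonneg C2
    rw [abs_le]
    constructor <;> linarith
  · have h3 := hsm y h
    have h6 := abs_nonneg C1
    have h7 := abs_nonneg C2
    linarith

end Pool.Agent.Y723.Z8.Chr
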