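import Mathlib
import Pool.Agent.Y723.Z8.Stm
import Pool.Agent.TH841.PT.ATS2
import Pool.Agent.W307.RT.RAT4

/-! Project Z8: the refined abstract bound with signed weights, the sum over the unlinked
variables (adapted from `W307/RT/RAT1.lean`, `RAT2.lean`). -/

set_option autoImplicit false

namespace Pool.Agent.Y723.Z8

open Finset Pool.Agent.W262.RK Pool.Agent.W262.RK.AT Pool.Agent.W307.RT Pool.Agent.TH841.PT

variable {ι : Type} [Fintype ι] [DecidableEq ι]

lemma gp_hA {g : ℕ → ℝ} (hg : ∀ p, 0 ≤ g p) {c A z y m : ℕ} (hz : c + A ≤ z)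
    (hm : m ∈ (PP z y).divisors) : gp g c m * hA A m ≤ gp g (c + A) m := by
  unfold gp hA
  rw [← prod_mul_distrib]
  apply prod_le_prod
  · intro p hp
    have h1 := (dv_prime hm (Nat.prime_of_mem_primeFactors hp) (Nat.dvd_of_mem_primeFactors hp)).1
    have h2 : (c : ℝ) < p := by exact_mod_cast (by omega : c < p)
    have h3 : 0 ≤ g p / ((p : ℝ) - c) := div_nonneg (hg p) (by linarith)
    exact mul_nonneg h3 (zero_le_one.trans (one_le_fac A p))
  · intro p hp
    have h1 := (dv_prime hm (Nat.prime_of_mem_primeFactors hp) (Nat.dvd_of_mem_primeFactors hp)).1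
    have h2 : (c : ℝ) + A < p := by exact_mod_cast (by omega : c + A < p)
    have hA0 : (0 : ℝ) ≤ A := Nat.cast_nonneg A
    have hc0 : (0 : ℝ) ≤ c := Nat.cast_nonneg c
    have h3 : (0 : ℝ) < (p : ℝ) - c := by linarith
    have h4 : (0 : ℝ) < (p : ℝ) - ((c + A : ℕ) : ℝ) := by push_cast; linarith
    have h5 : (0 : ℝ) < p := by linarith
    have h6 : g p / ((p : ℝ) - c) * (1 + (A : ℝ) / (p : ℝ)) =
        g p * ((p + A) / (((p : ℝ) - c) * p)) := by
      field_simp
    rw [h6, div_eq_mul_one_div (g p) ((p : ℝ) - ((c + A : ℕ) : ℝ))]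
    apply mul_le_mul_of_nonneg_left _ (hg p)
    rw [div_le_div_iff₀ (by positivity) h4]
    push_cast
    nlinarith [mul_nonneg hA0 hA0, mul_nonneg hA0 hc0]

/-- the hypothesis about the characters of the variables in `W` -/
def CHg (σ : ι → ℕ → ℝ) (L : ι → ι → Bool) (κ : ι → ℤ) (z y : ℕ) (W : Finset ι)
    (t : ι → Finset ℕ) (B : ι → ℝ) : Prop :=
  ∀ e : ι → ℕ, (∀ b ∈ W, e b = 1) → (∀ b, b ∉ W → e b ∈ t b) →
    (∀ a b, a ≠ b → (e a).Coprime (e b)) → ∀ i ∈ W, ∃ φ : ℕ → ℝ, (∀ p, |φ p| ≤ 1) ∧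
      (∀ p ∈ PS z y, (∀ b, ¬ p ∣ e b) → Ps L κ e i p = φ p) ∧
      ∑ p ∈ PS z y, σ i p * φ p / (p : ℝ) ≤ B i

/-- the inner sum -/
lemma inner_full {σ g : ι → ℕ → ℝ} {L : ι → ι → Bool} {κ : ι → ℤ} {c z A y : ℕ} {C : ℝ}
    (hab : ∀ i p, |σ i p| ≤ g i p) (hg : ∀ i p, 0 ≤ g i p) (hcz : c ≤ z) (hC : 0 ≤ C) (hF : FSg σ c z A C) (hy : z < y)
    {W : Finset ι} (hW : ∀ i ∈ W, ∀ j ∈ W, L i j = false) {t : ι → Finset ℕ}
    (ht : ∀ b, t b ⊆ (PP z y).divisors) (htW : ∀ b ∈ W, t b = (PP z y).divisors)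
    {B : ι → ℝ} (hB : CHg σ L κ z y W t B) {e : ι → ℕ} (he : e ∈ Fintype.piFinset (tE W t)) :
    |∑ f ∈ Fintype.piFinset (tF W t), ATS8.HG σ L κ c (fun b => e b * f b)| ≤
      (C * Real.exp (∑ i ∈ W, B i)) * ∏ b ∈ univ \ W, (gp (g b) c (e b) * hA A (e b)) := by
  classical
  obtain ⟨he1, he2⟩ := mem_tE.1 he
  have heD : ∀ b, e b ∈ (PP z y).divisors := by
    intro b
    by_cases hb : b ∈ W
    · rw [he1 b hb]; exact one_mem_dv z y
    · exact ht b (he2 b hb)
  have hg0 : ∀ b, 0 ≤ gp (g b) c (e b) := fun b => ATS8.gp_nonneg (hg b) hcz (heD b)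
  have hRHS : 0 ≤ (C * Real.exp (∑ i ∈ W, B i)) *
      ∏ b ∈ univ \ W, (gp (g b) c (e b) * hA A (e b)) :=
    mul_nonneg (mul_nonneg hC (Real.exp_pos _).le)
      (prod_nonneg fun b _ => mul_nonneg (hg0 b) (hA_nonneg _ _))
  by_cases hcop : ∀ a b, a ≠ b → (e a).Coprime (e b)
  swap
  · have h0 : ∀ f ∈ Fintype.piFinset (tF W t), ATS8.HG σ L κ c (fun b => e b * f b) = 0 := by
      intro f _
      unfold ATS8.HG
      rw [if_neg]
      intro h
      apply hcop
      intro a b hab
      exact Nat.Coprime.coprime_mul_right (Nat.Coprime.coprime_mul_right_right (h a b hab))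
    rw [sum_eq_zero h0, abs_zero]
    exact hRHS
  set R := ∏ b, e b with hR
  have hR0 : R ≠ 0 := prod_ne_zero_iff.2 fun b _ => dv_ne_zero (heD b)
  have hcR : ∀ m : ℕ, m.Coprime R ↔ ∀ b, m.Coprime (e b) := by
    intro m
    rw [hR, Nat.coprime_prod_right_iff]
    simp
  choose! φ hφ1 hφ2 hφ3 using hB e he1 he2 hcop
  have hmain := hF y R W (fun i => Ps L κ e i) φ B hy hR0 (fun i _ => Ps_one L κ e i)
    (fun i _ m n hmn => by
      have h0 : m * n ≠ 0 := fun h => PP_ne_zero z y (by rw [h] at hmn; exact zero_dvd_iff.1 hmn)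
      exact Ps_mul L κ e i (left_ne_zero_of_mul h0) (right_ne_zero_of_mul h0))
    hφ1 (fun i hi p hp hpR => hφ2 i hi p hp fun b hb =>
      hpR (hb.trans (dvd_prod_of_mem e (mem_univ b)))) hφ3
  have hkey : ∑ f ∈ Fintype.piFinset (tF W t), ATS8.HG σ L κ c (fun b => e b * f b) =
      ((∏ b ∈ univ \ W, gp (σ b) c (e b)) * RW L κ W e) *
        ∑ d ∈ (Tup ι z y).filter (fun d => (∀ i, (d i).Coprime R) ∧ ∀ i, i ∉ W → d i = 1),
          ∏ i ∈ W, (gp (σ i) c (d i) * Ps L κ e i (d i)) := by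
    have h1 : (Tup ι z y).filter (fun d => (∀ i, (d i).Coprime R) ∧ ∀ i, i ∉ W → d i = 1) =
        (Fintype.piFinset (tF W t)).filter (fun d => (∀ i j, i ≠ j → (d i).Coprime (d j)) ∧
          ∀ i, (d i).Coprime R) := by
      ext d
      unfold Tup
      rw [mem_filter, mem_filter, mem_filter, Fintype.mem_piFinset, mem_tF]
      constructor
      · rintro ⟨⟨h1, h2⟩, h3, h4⟩
        exact ⟨⟨fun b hb => by rw [htW b hb]; exact h1 b, h4⟩, h2, h3⟩
      · rintro ⟨⟨h1, h4⟩, h2, h3⟩
        refine ⟨⟨fun b => ?_, h2⟩, h3, h4⟩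
        by_cases hb : b ∈ W
        · rw [← htW b hb]; exact h1 b hb
        · rw [h4 b hb]; exact one_mem_dv z y
    rw [h1, mul_sum, sum_filter]
    apply sum_congr rfl
    intro f hf
    obtain ⟨hf1, hf2⟩ := mem_tF.1 hf
    have hiff : (∀ a b, a ≠ b → (e a * f a).Coprime (e b * f b)) ↔
        (∀ i j, i ≠ j → (f i).Coprime (f j)) ∧ ∀ i, (f i).Coprime R := by
      constructor
      · intro h
        refine ⟨fun i j hij => Nat.Coprime.coprime_mul_left
          (Nat.Coprime.coprime_mul_left_right (h i j hij)), fun i => ?_⟩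
        rw [hcR]
        intro b
        by_cases hib : i = b
        · subst hib
          by_cases hi : i ∈ W
          · rw [he1 i hi]; exact Nat.coprime_one_right _
          · rw [hf2 i hi]; exact Nat.coprime_one_left _
        · exact Nat.Coprime.coprime_mul_left (Nat.Coprime.coprime_mul_right_right (h i b hib))
      · rintro ⟨h1, h2⟩ a b hab
        have h2a := (hcR _).1 (h2 a)
        have h2b := (hcR _).1 (h2 b)
        exact Nat.Coprime.mul_left (Nat.Coprime.mul_right (hcop a b hab) (h2b a).symm)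
          (Nat.Coprime.mul_right (h2a b) (h1 a b hab))
    unfold ATS8.HG
    by_cases hc : (∀ i j, i ≠ j → (f i).Coprime (f j)) ∧ ∀ i, (f i).Coprime R
    · rw [if_pos (hiff.2 hc), if_pos hc, Sym_split κ hW he1 hf2]
      have h3 : ∏ i, gp (σ i) c (e i * f i) = (∏ b ∈ univ \ W, gp (σ b) c (e b)) *
          ∏ i ∈ W, gp (σ i) c (f i) := by
        rw [← prod_sdiff (subset_univ W)]
        congr 1
        · apply prod_congr rfl
          intro b hb
          rw [hf2 b (mem_sdiff.1 hb).2, mul_one]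
        · apply prod_congr rfl
          intro b hb
          rw [he1 b hb, one_mul]
      rw [h3, prod_mul_distrib]
      ring
    · rw [if_neg (fun h => hc (hiff.1 h)), if_neg hc]
  rw [hkey, abs_mul, abs_mul, prod_mul_distrib]
  have hQ : |∏ b ∈ univ \ W, gp (σ b) c (e b)| ≤ ∏ b ∈ univ \ W, gp (g b) c (e b) :=
    ATS8.abs_prod_gp_le hab hcz _ heD
  have hRA : ∏ p ∈ R.primeFactors, (1 + (A : ℝ) / (p : ℝ)) ≤ ∏ b ∈ univ \ W, hA A (e b) := by
    have h1 : hA A R ≤ ∏ b, hA A (e b) := hA_prod_le A univ e fun b _ => dv_ne_zero (heD b)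
    have h2 : ∏ b, hA A (e b) = ∏ b ∈ univ \ W, hA A (e b) := by
      rw [← prod_sdiff (subset_univ W)]
      rw [prod_eq_one (s := W) (fun b hb => by rw [he1 b hb, hA_one]), mul_one]
    rw [← h2]
    exact h1
  have hP0 : 0 ≤ ∏ b ∈ univ \ W, gp (g b) c (e b) := prod_nonneg fun b _ => hg0 b
  have hCe : 0 ≤ C * Real.exp (∑ i ∈ W, B i) := mul_nonneg hC (Real.exp_pos _).le
  calc |∏ b ∈ univ \ W, gp (σ b) c (e b)| * |RW L κ W e| *
        |∑ d ∈ (Tup ι z y).filter (fun d => (∀ i, (d i).Coprime R) ∧ ∀ i, i ∉ W → d i = 1),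
          ∏ i ∈ W, (gp (σ i) c (d i) * Ps L κ e i (d i))|
      ≤ (∏ b ∈ univ \ W, gp (g b) c (e b)) * 1 *
        (C * Real.exp (∑ i ∈ W, B i) * ∏ b ∈ univ \ W, hA A (e b)) := by
        apply mul_le_mul (mul_le_mul hQ (abs_RW_le L κ W e) (abs_nonneg _) hP0) _ (abs_nonneg _)
          (by positivity)
        exact hmain.trans (mul_le_mul_of_nonneg_left hRA hCe)
    _ = _ := by ring

/-- the sum when all the variables of `W` are unrestricted -/
lemma full_case {σ g : ι → ℕ → ℝ} {L : ι → ι → Bool} {κ : ι → ℤ} {c z A y : ℕ} {C : ℝ}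
    (hab : ∀ i p, |σ i p| ≤ g i p) (hg : ∀ i p, 0 ≤ g i p) (hcz : c + A ≤ z) (hC : 0 ≤ C) (hF : FSg σ c z A C) (hy : z < y)
    {W : Finset ι} (hW : ∀ i ∈ W, ∀ j ∈ W, L i j = false) {t : ι → Finset ℕ}
    (ht : ∀ b, t b ⊆ (PP z y).divisors) (htW : ∀ b ∈ W, t b = (PP z y).divisors)
    {B : ι → ℝ} (hB : CHg σ L κ z y W t B) :
    |∑ d ∈ Fintype.piFinset t, ATS8.HG σ L κ c d| ≤
      (C * Real.exp (∑ i ∈ W, B i)) *
        ∏ b ∈ univ \ W, ∑ m ∈ t b, gp (g b) (c + A) m * hh m := by
  rw [sum_split W t]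
  refine (abs_sum_le_sum_abs _ _).trans ?_
  rw [← sum_off W t (fun b m => gp (g b) (c + A) m * hh m), mul_sum]
  apply sum_le_sum
  intro e he
  refine (inner_full hab hg (by omega) hC hF hy hW ht htW hB he).trans ?_
  apply mul_le_mul_of_nonneg_left _ (mul_nonneg hC (Real.exp_pos _).le)
  obtain ⟨he1, he2⟩ := mem_tE.1 he
  apply prod_le_prod
  · intro b hb
    have hm := ht b (he2 b (mem_sdiff.1 hb).2)
    exact mul_nonneg (ATS8.gp_nonneg (hg b) (by omega) hm) (hA_nonneg _ _)
  · intro b hb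
    have hm := ht b (he2 b (mem_sdiff.1 hb).2)
    refine (gp_hA (hg b) hcz hm).trans ?_
    exact le_mul_of_one_le_right (ATS8.gp_nonneg (hg b) hcz hm) (one_le_hh _)

lemma CHg_full {σ : ι → ℕ → ℝ} {L : ι → ι → Bool} {κ : ι → ℤ} {z y : ℕ} {W : Finset ι} {t : ι → Finset ℕ}
    {B : ι → ℝ} (h : CHg σ L κ z y W t B) {i : ι} (hi : i ∈ W) (X : Finset ℕ) :
    CHg σ L κ z y W (Function.update t i X) B := by
  intro e h1 h2 h3
  apply h e h1 _ h3
  intro b hb
  have := h2 b hb
  rwa [Function.update_of_ne (by rintro rfl; exact hb hi)] at this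

lemma CHg_erase {σ : ι → ℕ → ℝ} {L : ι → ι → Bool} {κ : ι → ℤ} {z y : ℕ} {W : Finset ι} {t : ι → Finset ℕ}
    {B : ι → ℝ} (h : CHg σ L κ z y W t B) (hW : ∀ i ∈ W, ∀ j ∈ W, L i j = false) {i : ι}
    (hi : i ∈ W) (X : Finset ℕ) : CHg σ L κ z y (W.erase i) (Function.update t i X) B := by
  intro e h1 h2 h3 j hj
  have hjW := (mem_erase.1 hj).2
  have hji := (mem_erase.1 hj).1
  obtain ⟨φ, a1, a2, a3⟩ := h (Function.update e i 1) (by
    intro b hb
    by_cases hbi : b = i
    · subst hbi; rw [Function.update_self]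
    · rw [Function.update_of_ne hbi]
      exact h1 b (mem_erase.2 ⟨hbi, hb⟩)) (by
    intro b hb
    have hbi : b ≠ i := by rintro rfl; exact hb hi
    rw [Function.update_of_ne hbi]
    have := h2 b (fun h => hb (mem_erase.1 h).2)
    rwa [Function.update_of_ne hbi] at this) (by
    intro a b hab
    by_cases ha : a = i
    · subst ha
      rw [Function.update_self]
      exact Nat.coprime_one_left _
    · by_cases hb : b = i
      · subst hb
        rw [Function.update_self]
        exact Nat.coprime_one_right _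
      · rw [Function.update_of_ne ha, Function.update_of_ne hb]
        exact h3 a b hab) j hjW
  refine ⟨φ, a1, fun p hp hpe => ?_, a3⟩
  rw [← Ps_update e 1 (hW j hjW i hi) (hW i hi j hjW)]
  apply a2 p hp
  intro b
  by_cases hb : b = i
  · subst hb
    rw [Function.update_self]
    exact (mem_PS.1 hp).2.one_lt.ne' ∘ Nat.dvd_one.1
  · rw [Function.update_of_ne hb]
    exact hpe b

/-- the sum when some of the variables of `W` are large -/
lemma res_case {σ g : ι → ℕ → ℝ} {L : ι → ι → Bool} {κ : ι → ℤ} {c z A y : ℕ} {C : ℝ}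
    (hab : ∀ i p, |σ i p| ≤ g i p) (hg : ∀ i p, 0 ≤ g i p) (hcz : c + A ≤ z) (hC : 0 ≤ C) (hF : FSg σ c z A C) (hy : z < y)
    {V Y : ℕ} (hVY : V ≤ Y) {B E G : ι → ℝ}
    (hE : ∀ i, ∑ m ∈ (PP z y).divisors.filter (fun m => m ≤ V), gp (g i) (c + A) m * hh m ≤ E i)
    (hG : ∀ i, ∑ m ∈ (PP z y).divisors.filter (fun m => Y < m), gp (g i) (c + A) m * hh m ≤ G i)
    (U : Finset ι) : ∀ (W : Finset ι) (t : ι → Finset ℕ), U ⊆ W →
    (∀ i ∈ W, ∀ j ∈ W, L i j = false) → (∀ b, t b ⊆ (PP z y).divisors) →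
    (∀ b ∈ W, b ∉ U → t b = (PP z y).divisors) → (∀ b ∈ U, t b = lg z y V Y) →
    CHg σ L κ z y W t B →
    |∑ d ∈ Fintype.piFinset t, ATS8.HG σ L κ c d| ≤
      C * (∏ i ∈ U, (Real.exp (B i) + E i + G i)) * Real.exp (∑ i ∈ W \ U, B i) *
        ∏ b ∈ univ \ W, ∑ m ∈ t b, gp (g b) (c + A) m * hh m := by
  induction U using Finset.induction_on with
  | empty =>
    intro W t _ hW ht htW _ hB
    rw [prod_empty, mul_one, sdiff_empty]
    exact full_case hab hg hcz hC hF hy hW ht (fun b hb => htW b hb (notMem_empty b)) hB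
  | insert i U hi ih =>
    intro W t hUW hW ht htW htU hB
    have hiW : i ∈ W := hUW (mem_insert_self i U)
    have hnn : ∀ b, ∀ m ∈ (PP z y).divisors, 0 ≤ gp (g b) (c + A) m * hh m := fun b m hm =>
      mul_nonneg (ATS8.gp_nonneg (hg b) hcz hm) (hh_nonneg _)
    have hE0 : ∀ i, 0 ≤ E i := fun i =>
      (sum_nonneg fun m hm => hnn i m (mem_filter.1 hm).1).trans (hE i)
    have hG0 : ∀ i, 0 ≤ G i := fun i =>
      (sum_nonneg fun m hm => hnn i m (mem_filter.1 hm).1).trans (hG i)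
    rw [split_lg hVY t i (htU i (mem_insert_self i U))]
    have hsubD : ∀ (X : Finset ℕ), X ⊆ (PP z y).divisors → ∀ b,
        Function.update t i X b ⊆ (PP z y).divisors := by
      intro X hX b
      by_cases hb : b = i
      · subst hb; rw [Function.update_self]; exact hX
      · rw [Function.update_of_ne hb]; exact ht b
    have hUne : ∀ b ∈ U, b ≠ i := by
      rintro b hb rfl
      exact hi hb
    have htU' : ∀ X, ∀ b ∈ U, Function.update t i X b = lg z y V Y := by
      intro X b hb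
      rw [Function.update_of_ne (hUne b hb)]
      exact htU b (mem_insert_of_mem hb)
    set PU := ∏ i ∈ U, (Real.exp (B i) + E i + G i) with hPU
    set SW := Real.exp (∑ i ∈ W \ insert i U, B i) with hSW
    set PW := ∏ b ∈ univ \ W, ∑ m ∈ t b, gp (g b) (c + A) m * hh m with hPW
    have hPU0 : 0 ≤ PU := prod_nonneg fun i _ => by
      have := hE0 i
      have := hG0 i
      have := (Real.exp_pos (B i)).le
      linarith
    have hPW0 : 0 ≤ PW := prod_nonneg fun b _ => sum_nonneg fun m hm => hnn b m (ht b hm)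
    have hSW0 : 0 ≤ SW := (Real.exp_pos _).le
    have hPWX : ∀ X, ∏ b ∈ univ \ W, ∑ m ∈ Function.update t i X b,
        gp (g b) (c + A) m * hh m = PW := by
      intro X
      rw [hPW]
      apply prod_congr rfl
      intro b hb
      rw [Function.update_of_ne (by rintro rfl; exact (mem_sdiff.1 hb).2 hiW)]
    have a1 := ih W (Function.update t i (PP z y).divisors) ((subset_insert i U).trans hUW) hW
      (hsubD _ (Subset.refl _)) (by
        intro b hb hbU
        by_cases hbi : b = i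
        · subst hbi; rw [Function.update_self]
        · rw [Function.update_of_ne hbi]
          apply htW b hb
          rw [mem_insert, not_or]
          exact ⟨hbi, hbU⟩) (htU' _) (CHg_full hB hiW _)
    have hWU : W \ U = insert i (W \ insert i U) := by
      ext b
      simp only [mem_sdiff, mem_insert]
      constructor
      · rintro ⟨h1, h2⟩
        by_cases hbi : b = i
        · exact Or.inl hbi
        · exact Or.inr ⟨h1, by rintro (h | h); exacts [hbi h, h2 h]⟩
      · rintro (rfl | ⟨h1, h2⟩)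
        · exact ⟨hiW, hi⟩
        · exact ⟨h1, fun h => h2 (Or.inr h)⟩
    rw [hWU, sum_insert (by simp), Real.exp_add, hPWX] at a1
    have hWe : (W.erase i) \ U = W \ insert i U := by
      ext b
      simp only [mem_sdiff, mem_insert, mem_erase]
      tauto
    have hUe : univ \ (W.erase i) = insert i (univ \ W) := by
      ext b
      simp only [mem_sdiff, mem_insert, mem_erase, mem_univ, true_and]
      by_cases hbi : b = i
      · simp [hbi]
      · simp [hbi]
    have aX : ∀ X, X ⊆ (PP z y).divisors →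
        |∑ d ∈ Fintype.piFinset (Function.update t i X), ATS8.HG σ L κ c d| ≤
          C * PU * SW * ((∑ m ∈ X, gp (g i) (c + A) m * hh m) * PW) := by
      intro X hX
      have := ih (W.erase i) (Function.update t i X) (by
          intro b hb
          exact mem_erase.2 ⟨hUne b hb, hUW (mem_insert_of_mem hb)⟩)
        (fun a ha b hb => hW a (mem_erase.1 ha).2 b (mem_erase.1 hb).2)
        (hsubD _ hX) (by
          intro b hb hbU
          rw [Function.update_of_ne (mem_erase.1 hb).1]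
          apply htW b (mem_erase.1 hb).2
          rw [mem_insert, not_or]
          exact ⟨(mem_erase.1 hb).1, hbU⟩) (htU' _) (CHg_erase hB hW hiW _)
      rw [hWe, hUe, prod_insert (by simp [hiW]), hPWX, Function.update_self] at this
      exact this
    have a2 := aX _ (filter_subset (fun m => m ≤ V) _)
    have a3 := aX _ (filter_subset (fun m => Y < m) _)
    rw [prod_insert hi]
    have hcoef : 0 ≤ C * PU * SW := mul_nonneg (mul_nonneg hC hPU0) hSW0
    have b2 : C * PU * SW * ((∑ m ∈ (PP z y).divisors.filter (fun m => m ≤ V),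
        gp (g i) (c + A) m * hh m) * PW) ≤ C * PU * SW * (E i * PW) :=
      mul_le_mul_of_nonneg_left (mul_le_mul_of_nonneg_right (hE i) hPW0) hcoef
    have b3 : C * PU * SW * ((∑ m ∈ (PP z y).divisors.filter (fun m => Y < m),
        gp (g i) (c + A) m * hh m) * PW) ≤ C * PU * SW * (G i * PW) :=
      mul_le_mul_of_nonneg_left (mul_le_mul_of_nonneg_right (hG i) hPW0) hcoef
    refine (abs_sub _ _).trans ?_
    have b4 := abs_sub (∑ d ∈ Fintype.piFinset (Function.update t i (PP z y).divisors),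
      ATS8.HG σ L κ c d) (∑ d ∈ Fintype.piFinset (Function.update t i
        ((PP z y).divisors.filter (fun m => m ≤ V))), ATS8.HG σ L κ c d)
    calc _ ≤ C * PU * (Real.exp (B i) * SW) * PW + C * PU * SW * (E i * PW) +
          C * PU * SW * (G i * PW) := by linarith
      _ = _ := by ring

end Pool.Agent.Y723.Z8
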