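import Mathlib
import Pool.Agent.Y723.Z8.Rat1

/-! Project Z8: the refined abstract bound with signed weights, the main estimate (adapted from
`W307/RT/RAT3.lean`). -/

set_option autoImplicit false

namespace Pool.Agent.Y723.Z8

open Finset Pool.Agent.W262.RK Pool.Agent.W262.RK.AT Pool.Agent.W307.RT Pool.Agent.TH841.PT

variable {ι : Type} [Fintype ι] [DecidableEq ι]

/-- the bounds of FULLG -/
structure FBg (w : ι → ℝ) (g : ι → ℕ → ℝ) (c z : ℕ) (C : ℝ) : Prop where
  w0 : ∀ i, 0 < w i
  g0 : ∀ i p, 0 ≤ g i p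
  z2 : 2 ≤ z
  zc : c ≤ z
  C1 : 1 ≤ C
  F2 : ∀ i (y V : ℕ), z < y → 2 ≤ V →
    ∑ d ∈ (PP z y).divisors.filter (fun d => d ≤ V), gp (g i) c d * hh d ≤ C * Real.log V
  F3 : ∀ i (y Y : ℕ), z < y → 1 ≤ Y →
    ∑ d ∈ (PP z y).divisors.filter (fun d => Y < d), gp (g i) c d * hh d ≤
      C * Real.exp (-(Real.log Y / Real.log y)) * (Real.log y) ^ 2

/-- the main estimate -/
lemma main_est {w : ι → ℝ} {σ g : ι → ℕ → ℝ} {L : ι → ι → Bool} {κ : ι → ℤ} {c z A : ℕ} {C1 Cs : ℝ}
    (hB : FBg w g (c + A) z C1)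
    (hab : ∀ i p, |σ i p| ≤ g i p) (hCs : 0 ≤ Cs) (hF : FSg σ c z A Cs) (N : Finset ι)
    (ρ : ι → Fin 4) (h3 : ∀ b, b ∉ N → ρ b ≠ 3)
    (hW : ∀ i ∈ WW N ρ, ∀ j ∈ WW N ρ, L i j = false) (A' : ℕ) {C0 : ℝ} (hC0 : 0 ≤ C0)
    (P : Finset ι) : ∃ C' : ℝ, 0 ≤ C' ∧ ∀ y, z < y → ∀ G : ℝ,
      (G = Real.log (VV A' (Real.log y)) ∨
        (G = 1 ∧ UU N ρ ⊆ P ∧ ∀ b, b ∉ N → ρ b ≠ 1)) →
      CHg σ L κ z y (WW N ρ) (tN N z y (VV A' (Real.log y)) (YY A' (Real.log y)) ρ)
        (fun i => C0 + if i ∈ P then w i * Real.log (Real.log y) else Real.log G) →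
      |∑ d ∈ Fintype.piFinset (tN N z y (VV A' (Real.log y)) (YY A' (Real.log y)) ρ),
        ATS8.HG σ L κ c d| ≤
      C' * (Real.log y) ^ (∑ i ∈ (WW N ρ).filter (fun i => i ∈ P), w i) *
        G ^ (2 * Fintype.card ι) := by
  classical
  choose Cw hCw0 hCw using fun i => log_VV_le A' (hB.w0 i)
  set Cv : ℝ := ∑ i, Cw i with hCvdef
  have hCv0 : 0 ≤ Cv := sum_nonneg fun i _ => hCw0 i
  have hCv : ∀ i, ∀ l : ℝ, 1 ≤ l → Real.log (VV A' l) ≤ Cv * l ^ (w i) := fun i l hl => by
    refine (hCw i l hl).trans ?_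
    apply mul_le_mul_of_nonneg_right _ (Real.rpow_nonneg (by linarith) _)
    exact single_le_sum (f := Cw) (fun j _ => hCw0 j) (mem_univ i)
  have hC1 := hB.C1
  have hC10 : 0 ≤ C1 := zero_le_one.trans hC1
  set D : ℝ := Real.exp C0 + C1 * (Cv + 4) with hD
  have hE0 : 1 ≤ Real.exp C0 := Real.one_le_exp hC0
  have hD1 : 1 ≤ D := by
    have : 0 ≤ C1 * (Cv + 4) := by positivity
    linarith
  set M := Fintype.card ι with hM
  refine ⟨Cs * D ^ M * C1 ^ M, by positivity, fun y hy G hG hCH => ?_⟩
  have hly := one_le_log hB.z2 hy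
  set l := Real.log y with hl
  have hl0 : 0 < l := by linarith
  set V := VV A' l with hV
  set Y := YY A' l with hY
  have hV3 : 3 ≤ V := three_le_VV A' l
  have hVY : V ≤ Y := VV_le_YY A' l
  have hlV : 1 ≤ Real.log V := one_le_log_VV A' l
  have hG1 : 1 ≤ G := by
    rcases hG with h | h
    · rw [h]; exact hlV
    · rw [h.1]
  have hG0 : 0 < G := by linarith
  have hY1 : 1 ≤ Y := by omega
  have hlY : l ≤ Real.log Y / l := by
    rw [le_div_iff₀ hl0]
    have := log_YY_ge A' l
    nlinarith
  have hF3 : ∀ i, ∑ d ∈ (PP z y).divisors.filter (fun d => Y < d),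
      gp (g i) (c + A) d * hh d ≤ 2 * C1 := by
    intro i
    refine (hB.F3 i y Y hy hY1).trans ?_
    have a1 : Real.exp (-(Real.log Y / l)) ≤ Real.exp (-l) := Real.exp_le_exp.2 (by linarith)
    have a2 := exp_neg_pow 2 hly
    have a3 : ((Nat.factorial 2 : ℕ) : ℝ) = 2 := by norm_num [Nat.factorial]
    rw [a3] at a2
    have a4 : Real.exp (-(Real.log Y / l)) * l ^ 2 ≤ 2 :=
      (mul_le_mul_of_nonneg_right a1 (by positivity)).trans a2
    calc C1 * Real.exp (-(Real.log Y / l)) * l ^ 2 =
        C1 * (Real.exp (-(Real.log Y / l)) * l ^ 2) := by ring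
      _ ≤ C1 * 2 := mul_le_mul_of_nonneg_left a4 hC10
      _ = 2 * C1 := by ring
  set B : ι → ℝ := fun i => C0 + if i ∈ P then w i * Real.log l else Real.log G with hBdef
  set t := tN N z y V Y ρ with ht
  have htD : ∀ b ∈ WW N ρ, b ∉ UU N ρ → t b = (PP z y).divisors := by
    intro b hb hbU
    have : b ∈ N := by
      rw [mem_WW] at hb
      rw [mem_UU] at hbU
      tauto
    rw [ht]
    unfold tN
    rw [if_pos this]
  have htU : ∀ b ∈ UU N ρ, t b = lg z y V Y := by
    intro b hb
    rw [mem_UU] at hb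
    rw [ht]
    unfold tN
    rw [if_neg hb.1, hb.2]
    exact cell_two (by omega)
  have hres := res_case (κ := κ) hab hB.g0 hB.zc hCs hF hy hVY
    (fun i => hB.F2 i y V hy (by omega)) hF3 (UU N ρ) (WW N ρ) t subset_union_left hW
    (tN_sub N z y V Y ρ) htD htU hCH
  refine hres.trans ?_
  set gg : ι → ℝ := fun i => if i ∈ P then l ^ (w i) else G with hg
  have hg1 : ∀ i, 1 ≤ gg i := by
    intro i
    rw [hg]
    simp only
    split_ifs
    · exact Real.one_le_rpow hly (hB.w0 i).le
    · exact hG1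
  have hfac : ∀ i, Real.exp (B i) ≤ Real.exp C0 * gg i := by
    intro i
    rw [hBdef, hg]
    simp only
    rw [Real.exp_add]
    apply mul_le_mul_of_nonneg_left _ (Real.exp_pos _).le
    split_ifs
    · rw [Real.rpow_def_of_pos hl0, mul_comm]
    · rw [Real.exp_log hG0]
  have hfacW : ∀ i, Real.exp (B i) ≤ D * gg i := by
    intro i
    refine (hfac i).trans ?_
    apply mul_le_mul_of_nonneg_right _ (by linarith [hg1 i])
    have : 0 ≤ C1 * (Cv + 4) := by positivity
    linarith
  have hfacU : ∀ i ∈ UU N ρ, Real.exp (B i) + C1 * Real.log V + 2 * C1 ≤ D * gg i := by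
    intro i hi
    have h1 := hfac i
    have h2 : Real.log V ≤ (Cv + 1) * gg i := by
      by_cases hiP : i ∈ P
      · have : gg i = l ^ (w i) := by rw [hg]; simp only; rw [if_pos hiP]
        rw [this]
        have h5 := hCv i l hly
        have h6 : 0 ≤ l ^ (w i) := Real.rpow_nonneg hl0.le _
        linarith
      · have hGV : G = Real.log V := by
          rcases hG with h | h
          · exact h
          · exact absurd (h.2.1 hi) hiP
        have : gg i = G := by rw [hg]; simp only; rw [if_neg hiP]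
        rw [this, hGV]
        nlinarith
    have h3 := mul_le_mul_of_nonneg_left h2 hC10
    have h4 := hg1 i
    have h5 : 2 * C1 ≤ C1 * 2 * gg i := by nlinarith
    have h6 : 0 ≤ C1 * gg i := by positivity
    rw [hD]
    nlinarith
  have hnn : ∀ b, ∀ m ∈ (PP z y).divisors, 0 ≤ gp (g b) (c + A) m * hh m := fun b m hm =>
    mul_nonneg (ATS8.gp_nonneg (hB.g0 b) hB.zc hm) (hh_nonneg _)
  have hDg0 : ∀ i, 0 ≤ D * gg i := fun i => by have := hg1 i; positivity
  have hWprod : (∏ i ∈ UU N ρ, (Real.exp (B i) + C1 * Real.log V + 2 * C1)) *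
      Real.exp (∑ i ∈ WW N ρ \ UU N ρ, B i) ≤ ∏ i ∈ WW N ρ, (D * gg i) := by
    have hsubUW : UU N ρ ⊆ WW N ρ := subset_union_left
    rw [Real.exp_sum, ← prod_sdiff hsubUW, mul_comm]
    apply mul_le_mul
    · exact prod_le_prod (fun i _ => (Real.exp_pos _).le) fun i _ => hfacW i
    · apply prod_le_prod _ hfacU
      intro i _
      have := (Real.exp_pos (B i)).le
      positivity
    · apply prod_nonneg
      intro i _
      have := (Real.exp_pos (B i)).le
      positivity
    · exact prod_nonneg fun i _ => hDg0 i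
  have hcardM : ∀ s : Finset ι, s.card ≤ M := fun s =>
    (card_le_card (subset_univ s)).trans (le_of_eq card_univ)
  have hWprod2 : ∏ i ∈ WW N ρ, (D * gg i) ≤
      D ^ M * (l ^ (∑ i ∈ (WW N ρ).filter (fun i => i ∈ P), w i) * G ^ M) := by
    rw [prod_mul_distrib, prod_const, hg]
    simp only
    rw [prod_ite, prod_const, ← Real.rpow_sum_of_pos hl0]
    apply mul_le_mul (pow_le_pow_right₀ hD1 (hcardM _))
    · apply mul_le_mul_of_nonneg_left _ (by positivity)
      exact pow_le_pow_right₀ hG1 (hcardM _)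
    · positivity
    · positivity
  have hoth : ∏ b ∈ univ \ WW N ρ, ∑ m ∈ t b, gp (g b) (c + A) m * hh m ≤ C1 ^ M * G ^ M := by
    rw [← mul_pow]
    have hC1G : 1 ≤ C1 * G := by nlinarith
    calc ∏ b ∈ univ \ WW N ρ, ∑ m ∈ t b, gp (g b) (c + A) m * hh m
        ≤ ∏ b ∈ univ \ WW N ρ, (C1 * G) := by
          apply prod_le_prod
          · intro b _
            exact sum_nonneg fun m hm => hnn b m (tN_sub N z y V Y ρ b hm)
          · intro b hb
            have hbW := (mem_sdiff.1 hb).2
            rw [mem_WW, not_or] at hbW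
            have htb : t b = cell z y V Y (ρ b) := by
              rw [ht]
              unfold tN
              rw [if_neg hbW.1]
            rw [htb]
            have h3b := h3 b hbW.1
            have hcases : ρ b = 0 ∨ ρ b = 1 := by
              have h2b := hbW.2
              revert h2b h3b
              generalize ρ b = r
              revert r
              decide
            rcases hcases with h0 | h0
            · rw [h0]
              calc ∑ m ∈ cell z y V Y 0, gp (g b) (c + A) m * hh m
                  ≤ ∑ m ∈ {1}, gp (g b) (c + A) m * hh m := by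
                    apply sum_le_sum_of_subset_of_nonneg
                    · intro m hm
                      rw [mem_singleton]
                      exact cell_zero hm
                    · intro m hm _
                      rw [mem_singleton] at hm
                      rw [hm, ATS8.gp_one, hh_one]
                      norm_num
                _ = 1 := by rw [sum_singleton, ATS8.gp_one, hh_one, mul_one]
                _ ≤ _ := hC1G
            · have hGV : G = Real.log V := by
                rcases hG with h | h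
                · exact h
                · exact absurd h0 (h.2.2 b hbW.1)
              rw [h0]
              calc ∑ m ∈ cell z y V Y 1, gp (g b) (c + A) m * hh m
                  ≤ ∑ m ∈ (PP z y).divisors.filter (fun d => d ≤ V),
                      gp (g b) (c + A) m * hh m := by
                    apply sum_le_sum_of_subset_of_nonneg
                    · intro m hm
                      rw [mem_filter]
                      exact ⟨cell_sub _ _ _ _ _ hm, (cell_one hm).2⟩
                    · intro m hm _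
                      exact hnn b m (mem_filter.1 hm).1
                _ ≤ C1 * Real.log V := hB.F2 b y V hy (by omega)
                _ ≤ C1 * G := by
                    apply mul_le_mul_of_nonneg_left _ hC10
                    rw [hGV]
      _ = (C1 * G) ^ (univ \ WW N ρ).card := by rw [prod_const]
      _ ≤ (C1 * G) ^ M := pow_le_pow_right₀ hC1G (hcardM _)
  have hoth0 : 0 ≤ ∏ b ∈ univ \ WW N ρ, ∑ m ∈ t b, gp (g b) (c + A) m * hh m :=
    prod_nonneg fun b _ => sum_nonneg fun m hm => hnn b m (tN_sub N z y V Y ρ b hm)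
  set S := ∑ i ∈ (WW N ρ).filter (fun i => i ∈ P), w i with hS
  calc Cs * (∏ i ∈ UU N ρ, (Real.exp (B i) + C1 * Real.log V + 2 * C1)) *
        Real.exp (∑ i ∈ WW N ρ \ UU N ρ, B i) *
        ∏ b ∈ univ \ WW N ρ, ∑ m ∈ t b, gp (g b) (c + A) m * hh m
      = Cs * ((∏ i ∈ UU N ρ, (Real.exp (B i) + C1 * Real.log V + 2 * C1)) *
        Real.exp (∑ i ∈ WW N ρ \ UU N ρ, B i)) *
        ∏ b ∈ univ \ WW N ρ, ∑ m ∈ t b, gp (g b) (c + A) m * hh m := by ring
    _ ≤ Cs * (D ^ M * (l ^ S * G ^ M)) * (C1 ^ M * G ^ M) := by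
        apply mul_le_mul _ hoth hoth0 (by positivity)
        exact mul_le_mul_of_nonneg_left (hWprod.trans hWprod2) hCs
    _ = Cs * D ^ M * C1 ^ M * l ^ S * G ^ (2 * M) := by
        rw [two_mul, pow_add]
        ring

end Pool.Agent.Y723.Z8
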