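import Mathlib
import Pool.Agent.Y723.Z8.Rat2

/-! Project Z8: the refined abstract bound with signed weights, the characters (adapted from
`W307/RT/RAT4.lean`). -/

set_option autoImplicit false

namespace Pool.Agent.Y723.Z8

open Finset Pool.Agent.W262.RK Pool.Agent.W262.RK.AT Pool.Agent.W307.RT Pool.Agent.TH841.PT

variable {ι : Type} [Fintype ι] [DecidableEq ι]

/-- the bounds for sums of characters -/
structure CBg (w : ι → ℝ) (σ g : ι → ℕ → ℝ) (N : Finset ι) (z : ℕ) (C0 : ℝ) : Prop where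
  z2 : 2 ≤ z
  c0 : 0 ≤ C0
  w0 : ∀ i, 0 < w i
  ab : ∀ i p, |σ i p| ≤ g i p
  S : ∀ i y, z < y → |Sp (g i) z y - w i * Real.log (Real.log y)| ≤ C0
  X : ∀ n ∈ N, ∀ y, z < y → Sp (σ n) z y ≤ C0
  U : ∀ i (y r : ℕ) (e : Bool), z < y → 1 < r → Squarefree r →
    (∀ p : ℕ, p.Prime → p ∣ r → z < p) →
    ∑ p ∈ PS z y, σ i p * (Jr p r * x4 e p) / (p : ℝ) ≤ Real.log (Real.log r) + C0

/-- the trivial bound -/
lemma chg_triv {w : ι → ℝ} {σ g : ι → ℕ → ℝ} {N : Finset ι} {z : ℕ} {C0 : ℝ}
    (hC : CBg w σ g N z C0) (i : ι) {φ : ℕ → ℝ} (hφ : ∀ p, |φ p| ≤ 1) {y : ℕ} (hy : z < y) :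
    ∑ p ∈ PS z y, σ i p * φ p / (p : ℝ) ≤ w i * Real.log (Real.log y) + C0 := by
  have h1 := (abs_le.1 (hC.S i y hy)).2
  have h2 : ∑ p ∈ PS z y, σ i p * φ p / (p : ℝ) ≤ Sp (g i) z y := by
    unfold Sp
    apply sum_le_sum
    intro p _
    apply div_le_div_of_nonneg_right _ (Nat.cast_nonneg p)
    calc σ i p * φ p ≤ |σ i p * φ p| := le_abs_self _
      _ = |σ i p| * |φ p| := abs_mul _ _
      _ ≤ g i p * 1 := mul_le_mul (hC.ab i p) (hφ p) (abs_nonneg _)
          ((abs_nonneg _).trans (hC.ab i p))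
      _ = g i p := mul_one _
  linarith

lemma Jr_one_l (n : ℕ) : Jr 1 n = 1 := by simp [Jr]

/-- the characters of `N` when no other variable is linked to them -/
lemma CHg1 {w : ι → ℝ} {σ g : ι → ℕ → ℝ} {L : ι → ι → Bool} {N : Finset ι} {z : ℕ} {C0 : ℝ}
    (hC : CBg w σ g N z C0) {ρ : ι → Fin 4} {y V Y : ℕ} (hy : z < y)
    (hN : ∀ n ∈ N, ∀ b, b ∉ N → ρ b ≠ 0 → b ∉ UU N ρ → L n b = false ∧ L b n = false)
    {G : ℝ} (hG : 0 ≤ Real.log G) :
    CHg σ L (fun _ => 1) z y (WW N ρ) (tN N z y V Y ρ)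
      (fun i => C0 + if i ∈ UU N ρ then w i * Real.log (Real.log y) else Real.log G) := by
  intro e h1 h2 _ i hi
  by_cases hiU : i ∈ UU N ρ
  · refine ⟨fun p => Ps L (fun _ => 1) e i p, abs_Ps_le L (fun _ => 1) e i, fun p _ _ => rfl, ?_⟩
    have := chg_triv hC i (φ := fun p => Ps L (fun _ => 1) e i p)
      (abs_Ps_le L (fun _ => 1) e i) hy
    simp only
    rw [if_pos hiU]
    linarith
  · have hiN : i ∈ N := by
      rw [mem_WW] at hi
      rw [mem_UU] at hiU
      tauto
    refine ⟨fun p => 1, fun p => by simp, fun p hp _ => ?_, ?_⟩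
    · unfold Ps XX
      rw [Jr_one_l, mul_one, prod_eq_one]
      intro b _
      by_cases hbe : e b = 1
      · rw [hbe]
        have h4 : Jr ((1 : ℕ) : ℤ) p = 1 := by simp [Jr, jacobiSym.one_left]
        rw [h4, Jr_one_right]
        simp
      · have hbW : b ∉ WW N ρ := fun h => hbe (h1 b h)
        have hb2 := h2 b hbW
        have hbN : b ∉ N := fun h => hbW (mem_WW.2 (Or.inl h))
        have hbU : b ∉ UU N ρ := fun h => hbW (mem_WW.2 (Or.inr (mem_UU.1 h).2))
        unfold tN at hb2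
        rw [if_neg hbN] at hb2
        have hb0 : ρ b ≠ 0 := by
          intro h0
          rw [h0] at hb2
          exact hbe (cell_zero hb2)
        obtain ⟨a1, a2⟩ := hN i hiN b hbN hb0 hbU
        rw [a1, a2]
        simp
    · simp only [mul_one]
      rw [if_neg hiU]
      have := hC.X i hiN y hy
      unfold Sp at this
      linarith

/-- the characters when there is a small variable -/
lemma CHg2 {w : ι → ℝ} {σ g : ι → ℕ → ℝ} {L : ι → ι → Bool} {N : Finset ι} {z : ℕ} {C0 : ℝ}
    (hC : CBg w σ g N z C0)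
    {ρ : ι → Fin 4} {y V Y : ℕ} (hy : z < y) (hV : 3 ≤ V) (h3 : ∀ b, b ∉ N → ρ b ≠ 3)
    {b0 : ι} (hb0 : b0 ∉ N) (hb1 : ρ b0 = 1) :
    CHg σ L (fun _ => 1) z y (WW N ρ) (tN N z y V Y ρ)
      (fun i => (C0 + Real.log (Fintype.card ι)) +
        if i ∈ univ.filter (fun i => L i b0 = L b0 i) then w i * Real.log (Real.log y)
        else Real.log (Real.log V)) := by
  intro e h1 h2 hcop i hi
  set M := Fintype.card ι with hM
  have hM1 : 1 ≤ M := Fintype.card_pos_iff.2 ⟨b0⟩
  have hlM : 0 ≤ Real.log M := Real.log_natCast_nonneg M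
  by_cases hiP : i ∈ univ.filter (fun i => L i b0 = L b0 i)
  · refine ⟨fun p => Ps L (fun _ => 1) e i p, abs_Ps_le L (fun _ => 1) e i, fun p _ _ => rfl, ?_⟩
    have := chg_triv hC i (φ := fun p => Ps L (fun _ => 1) e i p)
      (abs_Ps_le L (fun _ => 1) e i) hy
    simp only
    rw [if_pos hiP]
    linarith
  · have hlink : L i b0 ≠ L b0 i := fun h => hiP (mem_filter.2 ⟨mem_univ i, h⟩)
    have heD : ∀ b, e b ∈ (PP z y).divisors := by
      intro b
      by_cases hb : b ∈ WW N ρ
      · rw [h1 b hb]; exact one_mem_dv z y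
      · exact tN_sub N z y V Y ρ b (h2 b hb)
    have heV : ∀ b, e b ≤ V := by
      intro b
      by_cases hb : b ∈ WW N ρ
      · rw [h1 b hb]; omega
      · have hb2 := h2 b hb
        rw [mem_WW, not_or] at hb
        unfold tN at hb2
        rw [if_neg hb.1] at hb2
        have h3b := h3 b hb.1
        have hcases : ρ b = 0 ∨ ρ b = 1 := by
          have h2b := hb.2
          revert h2b h3b
          generalize ρ b = r
          revert r
          decide
        rcases hcases with h0 | h0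
        · rw [h0] at hb2
          have := cell_zero hb2
          omega
        · rw [h0] at hb2
          exact (cell_one hb2).2
    have hb0W : b0 ∉ WW N ρ := by
      rw [mem_WW, not_or]
      refine ⟨hb0, ?_⟩
      rw [hb1]
      decide
    have he0 : 1 < e b0 := by
      have := h2 b0 hb0W
      unfold tN at this
      rw [if_neg hb0, hb1] at this
      exact (cell_one this).1
    have hne : b0 ≠ i := by
      rintro rfl
      exact hlink rfl
    have hmem : b0 ∈ (univ.erase i).filter (fun b => L i b ≠ L b i) :=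
      mem_filter.2 ⟨mem_erase.2 ⟨hne, mem_univ _⟩, hlink⟩
    have hr1 : 1 < lk L i e := by
      unfold lk
      rw [← mul_prod_erase _ _ hmem]
      have : 0 < ∏ b ∈ ((univ.erase i).filter (fun b => L i b ≠ L b i)).erase b0, e b :=
        prod_pos fun b _ => dv_pos (heD b)
      nlinarith
    have hr2 : lk L i e ≤ V ^ M := by
      unfold lk
      calc ∏ b ∈ (univ.erase i).filter (fun b => L i b ≠ L b i), e b
          ≤ ∏ b ∈ (univ.erase i).filter (fun b => L i b ≠ L b i), V :=
            prod_le_prod' fun b _ => heV b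
        _ = V ^ ((univ.erase i).filter (fun b => L i b ≠ L b i)).card := by rw [prod_const]
        _ ≤ V ^ M := Nat.pow_le_pow_right (by omega)
            ((card_le_card (subset_univ _)).trans (le_of_eq card_univ))
    have hsq : Squarefree (lk L i e) := by
      unfold lk
      apply squarefree_prod
      · intro b _
        exact dv_squarefree (heD b)
      · intro a _ b _ hab
        exact hcop a b hab
    obtain ⟨s, hs⟩ := XX_char L i e (fun b => dv_odd hC.z2 (heD b))
    refine ⟨fun p => Jr p (lk L i e) * x4 s p, fun p => ?_, fun p hp hpe => ?_, ?_⟩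
    · rw [abs_mul]
      exact mul_le_one₀ (abs_Jr_le _ _) (abs_nonneg _) (abs_x4_le _ _)
    · have hp' := (mem_PS.1 hp)
      have hpodd : Odd p := by
        apply hp'.2.odd_of_ne_two
        have := hC.z2
        omega
      unfold Ps
      rw [hs p hpodd fun b _ => (Nat.Prime.coprime_iff_not_dvd hp'.2).2 (hpe b), Jr_one_l, mul_one]
    · simp only
      rw [if_neg hiP]
      refine (hC.U i y (lk L i e) s hy hr1 hsq fun p hp hpr => lk_primes heD hp hpr).trans ?_
      have hlr : 0 < Real.log (lk L i e) := Real.log_pos (by exact_mod_cast hr1)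
      have hlV : 0 < Real.log V := Real.log_pos (by exact_mod_cast (by omega : 1 < V))
      have a1 : Real.log (lk L i e) ≤ M * Real.log V := by
        rw [← Real.log_pow]
        apply Real.log_le_log (by exact_mod_cast (by omega : 0 < lk L i e))
        exact_mod_cast hr2
      have a2 : Real.log (Real.log (lk L i e)) ≤ Real.log M + Real.log (Real.log V) := by
        rw [← Real.log_mul (by exact_mod_cast (by omega : M ≠ 0)) hlV.ne']
        exact Real.log_le_log hlr a1
      linarith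

/-- from the exponential to the power -/
lemma conv {z : ℕ} (hz : 2 ≤ z) {K Mc : ℝ} {X : ℕ → ℝ}
    (h : ∃ C' : ℝ, ∀ y, z < y → X y ≤ C' * Real.exp (K * Real.log (Real.log y) + Mc)) :
    ∃ C' : ℝ, ∀ y, z < y → X y ≤ C' * (Real.log y) ^ K := by
  obtain ⟨C', hC'⟩ := h
  refine ⟨C' * Real.exp Mc, fun y hy => (hC' y hy).trans (le_of_eq ?_)⟩
  have hly := one_le_log hz hy
  rw [Real.exp_add, Real.rpow_def_of_pos (by linarith), mul_comm (Real.log (Real.log y)) K]
  ring

/-- all patterns with a large variable `k0` -/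
lemma pat2g {w : ι → ℝ} {σ g : ι → ℕ → ℝ} {L : ι → ι → Bool} {c z : ℕ} {C E0 : ℝ}
    (hB : ATS8.Bd σ g (fun _ => 1) c z C E0) {N : Finset ι} {C0 : ℝ} (hC : CBg w σ g N z C0)
    {C2 : ℝ} {E2 : ℕ} (hC2 : 0 ≤ C2) (h2 : BW C2 E2) (hL : ∀ i, L i i = false) {K : ℝ}
    (hK0 : 0 ≤ K) {k0 : ι} (hK : ∀ U : Finset ι, (∀ i ∈ U, ∀ j ∈ U, L i j = L j i) → k0 ∈ U →
      ∑ i ∈ U, w i ≤ K) (π : ι → Fin 4) (hk0 : π k0 = 2) : ∃ C' : ℝ, ∀ y, z < y →
      |∑ d ∈ Fintype.piFinset (fun b => cell z y (VV (6 * (Fintype.card ι + 2 * E2)) (Real.log y))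
        (YY (6 * (Fintype.card ι + 2 * E2)) (Real.log y)) (π b)), ATS8.HG σ L (fun _ => 1) c d| ≤
        C' * (Real.log y) ^ K := by
  apply conv hB.z2 (Mc := Fintype.card ι * C0)
  have hll : ∀ y, z < y → 0 ≤ Real.log (Real.log y) := fun y hy =>
    Real.log_nonneg (one_le_log hB.z2 hy)
  have hc0 := hC.c0
  have hM0 : ∀ y, z < y → 0 ≤ K * Real.log (Real.log y) + Fintype.card ι * C0 := fun y hy => by
    have := hll y hy
    positivity
  have hlow : ∀ j, ∀ y, z < y → w j * Real.log (Real.log y) ≤ Sp (g j) z y + C0 := by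
    intro j y hy
    have := (abs_le.1 (hC.S j y hy)).1
    linarith
  have hUM : ∀ U : Finset ι, ∑ i ∈ U, w i ≤ K → ∀ y, z < y →
      ∑ i ∈ U, Sp (g i) z y ≤ K * Real.log (Real.log y) + Fintype.card ι * C0 := by
    intro U hU y hy
    have h0 := hll y hy
    calc ∑ i ∈ U, Sp (g i) z y ≤ ∑ i ∈ U, (w i * Real.log (Real.log y) + C0) := by
          apply sum_le_sum
          intro i _
          have := (abs_le.1 (hC.S i y hy)).2
          linarith
      _ = (∑ i ∈ U, w i) * Real.log (Real.log y) + U.card * C0 := by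
          rw [sum_add_distrib, sum_mul, sum_const, nsmul_eq_mul]
      _ ≤ K * Real.log (Real.log y) + Fintype.card ι * C0 := by
          apply add_le_add (mul_le_mul_of_nonneg_right hU h0)
          apply mul_le_mul_of_nonneg_right _ hc0
          exact_mod_cast (card_le_card (subset_univ U)).trans (le_of_eq card_univ)
  by_cases h3 : ∃ k, π k = 3
  · obtain ⟨k, hk⟩ := h3
    exact ATS8.tail_case hB _ hM0 π hk
  push Not at h3
  by_cases hl : ∃ i j, π i = 2 ∧ π j = 2 ∧ L i j ≠ L j i
  · obtain ⟨i, j, hi, hj, hij⟩ := hl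
    exact ATS8.link_case hB hC2 h2 hL le_rfl hM0 π hi hj hij
  push Not at hl
  have hk0U : k0 ∈ univ.filter (fun k => π k = 2) := mem_filter.2 ⟨mem_univ _, hk0⟩
  have hS : ∑ k ∈ univ.filter (fun k => π k = 2), w k ≤ K := by
    apply hK _ _ hk0U
    intro i hi j hj
    exact hl i j (mem_filter.1 hi).2 (mem_filter.1 hj).2
  by_cases h1 : ∃ j, π j = 1
  · obtain ⟨j, hj⟩ := h1
    by_cases hex : ∃ i, π i = 2 ∧ L i j ≠ L j i
    · obtain ⟨i, hi, hij⟩ := hex
      exact ATS8.max_case hB hL _ (hC.w0 i) π h3 hi hj hij (fun k hk => hl i k hi hk) (hlow i)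
        (hUM _ hS)
    · push Not at hex
      refine ATS8.triv_case hB _ (hC.w0 j) π h3 j (hlow j) fun y hy => ?_
      have hjn : j ∉ univ.filter (fun k => π k = 2) := by
        rw [mem_filter, hj]
        rintro ⟨-, h⟩
        exact absurd h (by decide)
      have := hUM (insert j (univ.filter (fun k => π k = 2))) (hK _ (by
        intro a ha b hb
        rw [mem_insert] at ha hb
        rcases ha with rfl | ha
        · rcases hb with rfl | hb
          · rfl
          · exact (hex b (mem_filter.1 hb).2).symm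
        · rcases hb with rfl | hb
          · exact hex a (mem_filter.1 ha).2
          · exact hl a b (mem_filter.1 ha).2 (mem_filter.1 hb).2) (mem_insert_of_mem hk0U)) y hy
      rwa [sum_insert hjn] at this
  · push Not at h1
    refine ATS8.diag_case hB _ π (fun k => ?_) (hUM _ hS)
    have a1 := h1 k
    have a3 := h3 k
    revert a1 a3
    generalize π k = r
    revert r
    decide

/-- refining a pattern -/
lemma refine_patg {F : (ι → ℕ) → ℝ} {z : ℕ} {K : ℝ} (A : ℕ)
    (N : Finset ι) (ρ : ι → Fin 4)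
    (h : ∀ π : ι → Fin 4, (∀ b, b ∉ N → π b = ρ b) → ∃ C' : ℝ, ∀ y, z < y →
      |∑ d ∈ Fintype.piFinset (fun b => cell z y (VV A (Real.log y)) (YY A (Real.log y)) (π b)),
        F d| ≤ C' * (Real.log y) ^ K) :
    ∃ C' : ℝ, ∀ y, z < y →
      |∑ d ∈ Fintype.piFinset (tN N z y (VV A (Real.log y)) (YY A (Real.log y)) ρ),
        F d| ≤ C' * (Real.log y) ^ K := by
  classical
  choose! C' hC' using h
  refine ⟨∑ π ∈ univ.filter (fun π : ι → Fin 4 => ∀ b, b ∉ N → π b = ρ b), C' π,
    fun y hy => ?_⟩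
  set V := VV A (Real.log y)
  set Y := YY A (Real.log y)
  rw [← sum_fiberwise_of_maps_to (s := Fintype.piFinset (tN N z y V Y ρ))
    (t := univ.filter (fun π : ι → Fin 4 => ∀ b, b ∉ N → π b = ρ b))
    (g := fun d k => cl V Y (d k)), sum_mul]
  · refine (abs_sum_le_sum_abs _ _).trans (sum_le_sum fun π hπ => ?_)
    have hπ' := (mem_filter.1 hπ).2
    refine le_of_eq_of_le ?_ (hC' π hπ' y hy)
    congr 1
    apply sum_congr _ (fun _ _ => rfl)
    ext d
    simp only [mem_filter, Fintype.mem_piFinset]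
    constructor
    · rintro ⟨h1, h2⟩ k
      exact mem_filter.2 ⟨tN_sub N z y V Y ρ k (h1 k), congrFun h2 k⟩
    · intro h
      refine ⟨fun k => ?_, funext fun k => (mem_filter.1 (h k)).2⟩
      unfold tN
      by_cases hk : k ∈ N
      · rw [if_pos hk]; exact cell_sub _ _ _ _ _ (h k)
      · rw [if_neg hk, ← hπ' k hk]; exact h k
  · intro d hd
    rw [mem_filter]
    refine ⟨mem_univ _, fun b hb => ?_⟩
    have := Fintype.mem_piFinset.1 hd b
    unfold tN at this
    rw [if_neg hb] at this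
    exact (mem_filter.1 this).2

/-- the final estimate when there is some room in the exponent -/
lemma fin_ltg {F : (ι → ℕ) → ℝ} {z : ℕ} {K S C1 : ℝ} (hz : 2 ≤ z)
    (A M : ℕ) (hSK : S < K) (hC1 : 0 ≤ C1) (t : ℕ → ι → Finset ℕ)
    (h : ∀ y, z < y → |∑ d ∈ Fintype.piFinset (t y), F d| ≤
      C1 * (Real.log y) ^ S * (Real.log (VV A (Real.log y))) ^ M) :
    ∃ C' : ℝ, ∀ y, z < y → |∑ d ∈ Fintype.piFinset (t y), F d| ≤
      C' * (Real.log y) ^ K := by
  obtain ⟨C3, hC3, h3⟩ := log_VV_pow_le A M (sub_pos.2 hSK)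
  refine ⟨C1 * C3, fun y hy => (h y hy).trans ?_⟩
  have hly := one_le_log hz hy
  have hl0 : 0 < Real.log y := by linarith
  calc C1 * (Real.log y) ^ S * (Real.log (VV A (Real.log y))) ^ M
      ≤ C1 * (Real.log y) ^ S * (C3 * (Real.log y) ^ (K - S)) :=
        mul_le_mul_of_nonneg_left (h3 _ hly) (by positivity)
    _ = C1 * C3 * ((Real.log y) ^ S * (Real.log y) ^ (K - S)) := by ring
    _ = _ := by rw [← Real.rpow_add hl0]; congr 2; ring

end Pool.Agent.Y723.Z8
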