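import Mathlib
import Pool.Agent.Y723.Z8.Rat3
import Pool.Agent.TH841.PT.Fin3

/-! Project Z8: the refined abstract bound with signed weights (adapted from
`W307/RT/RAT5.lean`). -/

set_option autoImplicit false

namespace Pool.Agent.Y723.Z8

open Finset Pool.Agent.W262.RK Pool.Agent.W262.RK.AT Pool.Agent.W307.RT Pool.Agent.TH841.PT

section

variable {ι : Type} [Fintype ι] [DecidableEq ι]

/-- one pattern -/
lemma pat_ratg {w : ι → ℝ} {σ g : ι → ℕ → ℝ} {L : ι → ι → Bool} {c z A : ℕ}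
    {K C E0 C1 Cs C0 C2 : ℝ}
    {E2 : ℕ} {N : Finset ι} (hBd : ATS8.Bd σ g (fun _ => 1) c z C E0)
    (hFB : FBg w g (c + A) z C1) (hCs : 0 ≤ Cs)
    (hFs : FSg σ c z A Cs) (hCB : CBg w σ g N z C0) (hC2 : 0 ≤ C2) (h2 : BW C2 E2)
    (hL : ∀ i, L i i = false) (hN2 : ∀ n ∈ N, ∀ m ∈ N, L n m = false)
    (hQ1 : ∀ i ∈ QN L N, ∀ j ∈ QN L N, L i j = false) (hQ2 : ∑ i ∈ QN L N, w i ≤ K)
    (hU : ∀ U : Finset ι, (∀ i ∈ U, ∀ j ∈ U, L i j = L j i) →
      (∃ k ∈ U, k ∉ N ∧ k ∉ QN L N) → ∑ i ∈ U, w i ≤ K)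
    (hS : ∀ b, b ∉ N → b ∉ QN L N →
      ∑ i ∈ (QN L N ∪ N).filter (fun i => L i b = L b i), w i < K) (ρ : ι → Fin 4) :
    ∃ C' : ℝ, ∀ y, z < y →
      |∑ d ∈ Fintype.piFinset (tN N z y (VV (6 * (Fintype.card ι + 2 * E2)) (Real.log y))
        (YY (6 * (Fintype.card ι + 2 * E2)) (Real.log y)) ρ), ATS8.HG σ L (fun _ => 1) c d| ≤
        C' * (Real.log y) ^ K := by
  classical
  have hw0 := hCB.w0
  have hK0 : 0 ≤ K := (sum_nonneg fun i _ => (hw0 i).le).trans hQ2
  have hll : ∀ y, z < y → 0 ≤ Real.log (Real.log y) := fun y hy =>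
    Real.log_nonneg (one_le_log hBd.z2 hy)
  have hM0 : ∀ y, z < y → 0 ≤ K * Real.log (Real.log y) + 0 := fun y hy => by
    have := hll y hy
    positivity
  set A' := 6 * (Fintype.card ι + 2 * E2) with hA'
  by_cases hA : ∃ k, k ∉ N ∧ ρ k = 3
  · obtain ⟨k, hk1, hk2⟩ := hA
    exact refine_patg A' N ρ fun π hπ => conv hBd.z2 (ATS8.tail_case hBd _ hM0 π (k := k)
      (by rw [hπ k hk1, hk2]))
  push Not at hA
  by_cases hl : ∃ i j, i ∉ N ∧ j ∉ N ∧ ρ i = 2 ∧ ρ j = 2 ∧ L i j ≠ L j i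
  · obtain ⟨i, j, hi, hj, hi2, hj2, hij⟩ := hl
    exact refine_patg A' N ρ fun π hπ => conv hBd.z2 (ATS8.link_case hBd hC2 h2 hL le_rfl hM0 π
      (by rw [hπ i hi, hi2]) (by rw [hπ j hj, hj2]) hij)
  by_cases hk : ∃ k, k ∉ N ∧ ρ k = 2 ∧ k ∉ QN L N
  · obtain ⟨k, hk1, hk2, hk3⟩ := hk
    exact refine_patg A' N ρ fun π hπ => pat2g hBd hCB hC2 h2 hL hK0 (k0 := k)
      (fun U hUu hkU => hU U hUu ⟨k, hkU, hk1, hk3⟩) π (by rw [hπ k hk1, hk2])
  push Not at hk
  have hUQ : ∀ b ∈ UU N ρ, b ∈ QN L N := by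
    intro b hb
    rw [mem_UU] at hb
    exact hk b hb.1 hb.2
  have hWQ : ∀ b ∈ WW N ρ, b ∈ QN L N ∪ N := by
    intro b hb
    rw [mem_union]
    by_cases hbN : b ∈ N
    · exact Or.inr hbN
    · left
      apply hUQ
      rw [mem_UU]
      rw [mem_WW] at hb
      tauto
  have hmQ : ∀ {i : ι}, i ∈ QN L N → ∀ n ∈ N, L i n = false ∧ L n i = false := by
    intro i hi
    have := (mem_filter.1 hi).2
    simpa using this.2
  have hW : ∀ i ∈ WW N ρ, ∀ j ∈ WW N ρ, L i j = false := by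
    intro i hi j hj
    rcases mem_union.1 (hWQ i hi) with h1 | h1
    · rcases mem_union.1 (hWQ j hj) with h3 | h3
      · exact hQ1 i h1 j h3
      · exact (hmQ h1 j h3).1
    · rcases mem_union.1 (hWQ j hj) with h3 | h3
      · exact (hmQ h3 i h1).2
      · exact hN2 i h1 j h3
  have hz2 := hBd.z2
  by_cases h1 : ∃ b, b ∉ N ∧ ρ b = 1 ∧ b ∉ QN L N
  · obtain ⟨b0, hb0, hb1, hbQ⟩ := h1
    have hM : 0 ≤ Real.log (Fintype.card ι) := Real.log_natCast_nonneg _
    obtain ⟨C', hC'0, hC'⟩ := main_est (κ := fun _ => 1) hFB hBd.ab hCs hFs N ρ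
      (fun b hb => hA b hb) hW A'
      (C0 := C0 + Real.log (Fintype.card ι)) (by have := hCB.c0; linarith)
      (univ.filter (fun i => L i b0 = L b0 i))
    have hlt : ∑ i ∈ (WW N ρ).filter (fun i => i ∈ univ.filter (fun i => L i b0 = L b0 i)), w i
        < K := by
      refine lt_of_le_of_lt ?_ (hS b0 hb0 hbQ)
      apply sum_le_sum_of_subset_of_nonneg
      · intro i hi
        rw [mem_filter] at hi ⊢
        exact ⟨hWQ i hi.1, (mem_filter.1 hi.2).2⟩
      · intro i _ _
        exact (hw0 i).le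
    apply fin_ltg hz2 A' (2 * Fintype.card ι) hlt hC'0
      (fun y => tN N z y (VV A' (Real.log y)) (YY A' (Real.log y)) ρ)
    intro y hy
    exact hC' y hy (Real.log (VV A' (Real.log y))) (Or.inl rfl)
      (CHg2 hCB hy (three_le_VV _ _) (fun b hb => hA b hb) hb0 hb1)
  push Not at h1
  have hNh : ∀ n ∈ N, ∀ b, b ∉ N → ρ b ≠ 0 → b ∉ UU N ρ → L n b = false ∧ L b n = false := by
    intro n hn b hbN hb0 hbU
    have hb3 := hA b hbN
    have hb2 : ρ b ≠ 2 := fun h => hbU (mem_UU.2 ⟨hbN, h⟩)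
    have hb1 : ρ b = 1 := by
      revert hb0 hb2 hb3
      generalize ρ b = r
      revert r
      decide
    have := hmQ (h1 b hbN hb1) n hn
    exact ⟨this.2, this.1⟩
  obtain ⟨C', hC'0, hC'⟩ := main_est (κ := fun _ => 1) hFB hBd.ab hCs hFs N ρ
    (fun b hb => hA b hb) hW A' hCB.c0 (UU N ρ)
  have hfil : (WW N ρ).filter (fun i => i ∈ UU N ρ) ⊆ QN L N := by
    intro i hi
    exact hUQ i (mem_filter.1 hi).2
  by_cases h0 : ∃ b, b ∉ N ∧ ρ b = 1
  · obtain ⟨b0, hb0, hb1⟩ := h0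
    have hbQ := h1 b0 hb0 hb1
    have hlt : ∑ i ∈ (WW N ρ).filter (fun i => i ∈ UU N ρ), w i < K := by
      have e1 : ∑ i ∈ (WW N ρ).filter (fun i => i ∈ UU N ρ), w i ≤
          ∑ i ∈ (QN L N).erase b0, w i := by
        apply sum_le_sum_of_subset_of_nonneg
        · intro i hi
          rw [mem_erase]
          refine ⟨?_, hfil hi⟩
          rintro rfl
          have := (mem_UU.1 (mem_filter.1 hi).2).2
          rw [hb1] at this
          exact absurd this (by decide)
        · intro i _ _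
          exact (hw0 i).le
      have e2 := add_sum_erase (QN L N) w hbQ
      have e3 := hw0 b0
      linarith
    apply fin_ltg hz2 A' (2 * Fintype.card ι) hlt hC'0
      (fun y => tN N z y (VV A' (Real.log y)) (YY A' (Real.log y)) ρ)
    intro y hy
    exact hC' y hy (Real.log (VV A' (Real.log y))) (Or.inl rfl)
      (CHg1 hCB hy hNh (Real.log_nonneg (one_le_log_VV _ _)))
  · push Not at h0
    refine ⟨C', fun y hy => ?_⟩
    have h4 := hC' y hy 1 (Or.inr ⟨rfl, Subset.refl _, h0⟩)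
      (CHg1 hCB hy hNh (by rw [Real.log_one]))
    have hly := one_le_log hz2 hy
    rw [one_pow, mul_one] at h4
    refine h4.trans ?_
    apply mul_le_mul_of_nonneg_left _ hC'0
    apply Real.rpow_le_rpow_of_exponent_le hly
    refine le_trans ?_ hQ2
    exact sum_le_sum_of_subset_of_nonneg hfil fun i _ _ => (hw0 i).le

end

/-- **The refined abstract bound** with signed weights -/
theorem rats_of (h : S_FSG) : S_RATS := by
  intro ι _ _ w L c K N hw hL hN2 hQ1 hQ2 hU hS
  classical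
  obtain ⟨C2, E2, h2⟩ := blw
  obtain ⟨zS, A, hFS⟩ := h ι c
  refine ⟨zS + 2 * (c + A) + 2, fun z hz σ g C0 hσ hSg hNs hch => ?_⟩
  have hg : ∀ i p, 0 ≤ g i p ∧ g i p ≤ 1 / 2 := fun i p =>
    ⟨(abs_nonneg _).trans (hσ i p).1, (hσ i p).2⟩
  obtain ⟨B, hB1, hBB⟩ := ATS8.exp_Sp_le
  have hSp0 : ∀ i y, 0 ≤ Sp (g i) z y := fun i y => by
    unfold Sp
    exact sum_nonneg fun p _ => div_nonneg (hg i p).1 (Nat.cast_nonneg p)
  choose CE hCE using fun i => EPSf.eps (σ i) (g i) c z C0 1 (hσ i) (by omega) zero_le_one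
    (fun y r e hy hr hs hp => (hch i y r e hy hr hs hp).trans (by
      have := hSp0 i y
      linarith))
  choose CF hCF1 hCF2 hCF3 using fun i => EFG.fullg (g i) c z (hg i) (by omega)
  choose CG hCG1 hCG2 hCG3 using fun i => EFG.fullg (g i) (c + A) z (hg i) (by omega)
  obtain ⟨Cs, hCs1, hFs'⟩ := hFS z (by omega)
  have hFs : FSg σ c z A Cs := hFs' σ fun i p => (hσ i p).1.trans (hσ i p).2
  set C' : ℝ := 1 + ∑ i, (|CE i| + |CF i| + |CG i|) with hC'
  have hCi : ∀ i, |CE i| + |CF i| + |CG i| ≤ C' := by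
    intro i
    have h1 : |CE i| + |CF i| + |CG i| ≤ ∑ i, (|CE i| + |CF i| + |CG i|) :=
      single_le_sum (f := fun i => |CE i| + |CF i| + |CG i|) (fun j _ => by positivity)
        (mem_univ i)
    linarith
  have hC'1 : 1 ≤ C' := by
    rw [hC']
    have : 0 ≤ ∑ i, (|CE i| + |CF i| + |CG i|) := sum_nonneg fun i _ => by positivity
    linarith
  set C : ℝ := C' * B with hC
  have hCC : C' ≤ C := by
    rw [hC]
    nlinarith
  have hCE' : ∀ i, CE i ≤ C := fun i => by
    have := le_abs_self (CE i)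
    have := abs_nonneg (CF i)
    have := abs_nonneg (CG i)
    linarith [hCi i]
  have hCF0 : ∀ i, CF i ≤ C' := fun i => by
    have := le_abs_self (CF i)
    have := abs_nonneg (CE i)
    have := abs_nonneg (CG i)
    linarith [hCi i]
  have hCG' : ∀ i, CG i ≤ C := fun i => by
    have := le_abs_self (CG i)
    have := abs_nonneg (CE i)
    have := abs_nonneg (CF i)
    linarith [hCi i]
  have hCF' : ∀ i, CF i ≤ C := fun i => (hCF0 i).trans hCC
  have hBd : ATS8.Bd σ g (fun _ => 1) c z C 1 :=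
    { ab := fun i p => (hσ i p).1
      w0 := fun i p => (hg i p).1
      w1 := fun i p => (hg i p).2
      z2 := by omega
      zc := by omega
      C1 := hC'1.trans hCC
      E1 := zero_le_one
      F0 := fun i y hy => by
        refine (hCF1 i y hy).trans ?_
        have h1 := hBB (g i) (hg i) z y (by omega) hy
        have h3 : 0 ≤ Real.exp (Sp (g i) z y) := (Real.exp_pos _).le
        calc CF i * Real.exp (Sp (g i) z y) ≤ C' * Real.exp (Sp (g i) z y) :=
              mul_le_mul_of_nonneg_right (hCF0 i) h3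
          _ ≤ C' * (B * Real.log y) := mul_le_mul_of_nonneg_left h1 (by linarith)
          _ = C * Real.log y := by rw [hC]; ring
      F1 := fun i y hy => (hCF1 i y hy).trans (mul_le_mul_of_nonneg_right (hCF' i)
        (Real.exp_pos _).le)
      F2 := fun i y V hy hV => (hCF2 i y V hy hV).trans (mul_le_mul_of_nonneg_right (hCF' i)
        (Real.log_natCast_nonneg V))
      F3 := fun i y Y hy hY => (hCF3 i y Y hy hY).trans (by
        apply mul_le_mul_of_nonneg_right _ (by positivity)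
        exact mul_le_mul_of_nonneg_right (hCF' i) (Real.exp_pos _).le)
      E := fun i y R r e hy hR hr hs hp => by
        simp only [Jr_one_l, mul_one]
        exact (hCE i y R r e hy hR hr hs hp).trans (by
          apply mul_le_mul_of_nonneg_right _ (hh_nonneg _)
          apply mul_le_mul_of_nonneg_right _ (Real.rpow_nonneg (Real.log_natCast_nonneg r) _)
          exact mul_le_mul_of_nonneg_right (hCE' i) (Real.exp_pos _).le) }
  have hFB : FBg w g (c + A) z C :=
    { w0 := hw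
      g0 := fun i p => (hg i p).1
      z2 := by omega
      zc := by omega
      C1 := hC'1.trans hCC
      F2 := fun i y V hy hV => (hCG2 i y V hy hV).trans (mul_le_mul_of_nonneg_right (hCG' i)
        (Real.log_natCast_nonneg V))
      F3 := fun i y Y hy hY => (hCG3 i y Y hy hY).trans (by
        apply mul_le_mul_of_nonneg_right _ (by positivity)
        exact mul_le_mul_of_nonneg_right (hCG' i) (Real.exp_pos _).le) }
  have hCB : CBg w σ g N z |C0| :=
    { z2 := by omega
      c0 := abs_nonneg _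
      w0 := hw
      ab := fun i p => (hσ i p).1
      S := fun i y hy => (hSg i y hy).trans (le_abs_self C0)
      X := fun n hn y hy => (hNs n hn y hy).trans (le_abs_self C0)
      U := fun i y r e hy hr hs hp => (hch i y r e hy hr hs hp).trans (by
        have := le_abs_self C0
        linarith) }
  have h2' : BW |C2| E2 := fun V Y hV hVY a b ha hb ha' hb' =>
    (h2 V Y hV hVY a b ha hb ha' hb').trans (by
      apply mul_le_mul_of_nonneg_right _ (by positivity)
      exact mul_le_mul_of_nonneg_right (le_abs_self C2)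
        (pow_nonneg (Real.log_natCast_nonneg Y) _))
  choose Cp hCp using fun ρ : ι → Fin 4 => pat_ratg hBd hFB (zero_le_one.trans hCs1) hFs hCB
    (abs_nonneg C2) h2' hL hN2 hQ1 hQ2 hU hS ρ
  refine ⟨∑ ρ ∈ univ.filter (fun ρ : ι → Fin 4 => ∀ n ∈ N, ρ n = 0), Cp ρ, fun y hy => ?_⟩
  rw [ATS8.total_eq, patternsN N z y (VV (6 * (Fintype.card ι + 2 * E2)) (Real.log y))
    (YY (6 * (Fintype.card ι + 2 * E2)) (Real.log y)), sum_mul]
  exact (abs_sum_le_sum_abs _ _).trans (sum_le_sum fun ρ _ => hCp ρ y hy)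

end Pool.Agent.Y723.Z8
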