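import Mathlib
import Pool.Agent.Y723.Z8.Rats

/-! Project Z8: the main average. -/

set_option autoImplicit false

namespace Pool.Agent.Y723.Z8

open Finset Pool.Agent.W262.RK Pool.Agent.W307.RT Pool.Agent.TH841.PT

lemma rr8_nonneg (i : Fin 7 × Bool) (p : ℕ) : 0 ≤ rr8 i p := by
  unfold rr8
  split_ifs <;> norm_num

lemma rr8_sum_le (j : Fin 7) (p : ℕ) : rr8 (j, false) p + rr8 (j, true) p ≤ 2 := by
  unfold rr8
  simp only
  split_ifs <;> norm_num <;> omega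

lemma abs_s8_le (i : I8) (p : ℕ) : |s8 i p| ≤ g8 i p := by
  unfold s8 g8
  have h1 := rr8_nonneg (i.1.1.1, false) p
  have h2 := rr8_nonneg (i.1.1.1, true) p
  rw [abs_le]
  split_ifs <;> constructor <;> linarith

lemma g8_le (i : I8) (p : ℕ) : g8 i p ≤ 1 / 2 := by
  unfold g8
  have := rr8_sum_le i.1.1.1 p
  linarith

theorem mak_of (h1 : S_RATS) (h2 : S_CMB) (h3 : S_EXP) (h4 : S_WGT) : S_MAK := by
  classical
  obtain ⟨c1, c2, c3, c4, c5, c6⟩ := h2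
  obtain ⟨z0, hz0⟩ := h1 I8 (fun _ => 1 / 4) L8 10 7 N8s (fun _ => by norm_num) c1 c2 c3 c4 c5 c6
  refine ⟨z0 + 10, fun z hz => ?_⟩
  obtain ⟨C0, w1, w2, w3⟩ := h4 z (by omega)
  obtain ⟨C, hC⟩ := hz0 z (by omega) s8 g8 C0 (fun i p => ⟨abs_s8_le i p, g8_le i p⟩) w1 w2 w3
  refine ⟨C, fun y hy => ?_⟩
  rw [h3 z y (by omega)]
  have h5 := (le_abs_self _).trans (hC y hy)
  have h6 : (Real.log y) ^ (7 : ℝ) = (Real.log y) ^ 7 := by
    rw [← Real.rpow_natCast]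
    norm_num
  rwa [h6] at h5

end Pool.Agent.Y723.Z8
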