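import Mathlib
import Pool.Agent.Y723.Z8.MakZ
import Pool.Agent.Y876.Z8.Exp
import Pool.Agent.Y776.Z8.WGT
import Pool.Agent.Y474.Z8.RNK
import Pool.Agent.Y455.Z8.Avg
import Pool.Agent.Y73.Z8.Low
import Pool.Agent.Y492.Z8.Cmb
import Pool.Agent.Y87.Z8.PAR
import Pool.Agent.Y260.Z8.FSG

/-! Project Z8: assembly, from the sieve count and the characters modulo 8. -/

set_option autoImplicit false

namespace Pool.Agent.Y723.Z8.Fin8

open Pool.Agent.Y723.Z8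

theorem rats8 : S_RATS := rats_of Pool.Agent.Y260.Z8.fsg

theorem mak8 (h : S_CHR) : S_MAK :=
  mak_of rats8 Pool.Agent.Y492.Z8.cmb Pool.Agent.Y876.Z8.exp (Pool.Agent.Y776.Z8.wgt_of h)

theorem avg8 (h1 : S_CHR) (h2 : S_CNT) : S_AVG :=
  Pool.Agent.Y455.Z8.avg_of h2 Pool.Agent.Y474.Z8.rnk (mak8 h1)

theorem low8 : S_LOW := Pool.Agent.Y73.Z8.low

theorem main8_of (h1 : S_CHR) (h2 : S_CNT) : S_MAIN :=
  main_of (avg8 h1 h2) Pool.Agent.Y87.Z8.par low8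

end Pool.Agent.Y723.Z8.Fin8
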