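import Mathlib
import Pool.Agent.Y723.Z8.Fin0
import Pool.Agent.Y723.Z8.ChrZ
import Pool.Agent.Y515.Z8.Cnt

/-! Project Z8: the average of `2 ^ rank` over the curves with a subgroup `Z/2 × Z/8`. -/

set_option autoImplicit false

namespace Pool.Agent.Y723.Z8.Fin8

open Pool.Agent.Y723.Z8

/-- **the average over the family** -/
theorem main8 : S_MAIN := main8_of Chr.chr (Pool.Agent.Y515.Z8.cnt_of Chr.chr)

end Pool.Agent.Y723.Z8.Fin8
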