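import Mathlib
import Pool.Agent.Y723.Z8.Stm
import Pool.Agent.W307.RS.FinalD

/-!
# Project Z8D: the elliptic curves with torsion `Z/2 × Z/8` ordered by the minimal discriminant

As `W307/RS` (`Z/2 × Z/4` and `Z/2 × Z/6`), with the forms of `Stm.lean`.
-/

set_option autoImplicit false

namespace Pool.Agent.Y723.Z8

open Finset Pool.Agent.W262.RK Pool.Agent.W307.RT Pool.Agent.TH841.PT

/-- the product of the forms with multiplicities, the square root of the discriminant -/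
def D8 (t : ℤ × ℤ) : ℤ := M8 t.1 t.2 * N8 t.1 t.2 * (M8 t.1 t.2 - N8 t.1 t.2)

/-- CNTS: the number of the coprime pairs in a short square with given small prime factors of the
forms (as `S_CNT`; template `W839/RS/CNT2S.lean`). -/
def S_CNTS : Prop := ∃ z0 : ℕ, ∀ z, z0 ≤ z → ∀ B : ℕ, ∃ (C : ℝ) (K y0 : ℕ), 0 ≤ C ∧ 1 ≤ K ∧
  ∀ (N1 N2 : ℤ) (X y Y : ℕ), N1.natAbs ≤ X ^ B → N2.natAbs ≤ X ^ B → y0 ≤ y → z < y →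
  y ^ K ≤ X →
  ∀ s ∈ Tup (Fin 7 × Bool) z y, ∀ v ∈ Tup (Fin 7 × Bool) z y, ∀ u ∈ Tup (Fin 7 × Bool) y Y,
  (∏ i, s i * v i * u i) ^ 8 ≤ X →
    (((Icc 1 X ×ˢ Icc 1 X).filter (fun t : ℕ × ℕ =>
      IsCoprime (N1 + (t.1 : ℤ)) (N2 + (t.2 : ℤ)) ∧
      (∀ j, F8 (N1 + (t.1 : ℤ)) (N2 + (t.2 : ℤ)) j ≠ 0) ∧
      S1 z y (pr8 z (N1 + (t.1 : ℤ)) (N2 + (t.2 : ℤ))) = s ∧
      S2 z y (pr8 z (N1 + (t.1 : ℤ)) (N2 + (t.2 : ℤ))) = v ∧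
      ∀ i, (u i : ℤ) ∣ pr8 z (N1 + (t.1 : ℤ)) (N2 + (t.2 : ℤ)) i)).card : ℝ) ≤
      C * X ^ 2 * (∏ i, gp (rr8 i) 10 (s i)) * (∏ i, gp (rr8 i) 10 (v i) / v i) *
        (∏ i, 2 ^ (u i).primeFactors.card / (u i : ℝ)) / (Real.log y) ^ 7

/-- AVGS: the average over a short square. -/
def S_AVGS : Prop := ∀ B : ℕ, ∃ C : ℝ, ∀ (N1 N2 : ℤ) (X : ℕ), 1 ≤ X → N1.natAbs ≤ X ^ B →
  N2.natAbs ≤ X ^ B →
    ∑ t ∈ Icc 1 X ×ˢ Icc 1 X,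
      Pool.Agent.W307.RS.GG M8 N8 (N1 + (t.1 : ℤ), N2 + (t.2 : ℤ)) ≤ C * X ^ 2

/-- LC8: the number of the integer points with `0 < |D8 t| ≤ V ^ 24`. -/
def S_LC8 : Prop := ∃ C : ℕ, ∀ V : ℕ, 1 ≤ V → ∀ S : Finset (ℤ × ℤ),
  (∀ t ∈ S, D8 t ≠ 0 ∧ (D8 t).natAbs ≤ V ^ 24) → S.card ≤ C * V ^ 2

/-- COV8: from the short squares to the region `0 < |D8 t| ≤ W ^ 24`. -/
def S_COV8 : Prop := ∀ g : ℤ × ℤ → ℝ, (∀ t, 0 ≤ g t) →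
  (∀ B : ℕ, ∃ C : ℝ, ∀ (N1 N2 : ℤ) (X : ℕ), 1 ≤ X → N1.natAbs ≤ X ^ B → N2.natAbs ≤ X ^ B →
    ∑ t ∈ Icc 1 X ×ˢ Icc 1 X, g (N1 + (t.1 : ℤ), N2 + (t.2 : ℤ)) ≤ C * X ^ 2) →
  ∃ C : ℝ, 0 ≤ C ∧ ∀ W : ℕ, 1 ≤ W → ∀ S : Finset (ℤ × ℤ),
    (∀ t ∈ S, D8 t ≠ 0 ∧ (D8 t).natAbs ≤ W ^ 24) → ∑ t ∈ S, g t ≤ C * (W : ℝ) ^ 2

/-- PARD8: parametrisation of the curves with a subgroup `Z/2 × Z/8` ordered by the minimal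
discriminant. -/
def S_PARD8 : Prop := Pool.Agent.W307.RS.PARD 8 M8 N8

/-- the main theorem for the minimal discriminant -/
def S_MAIND : Prop := ∃ C : ℝ, ∀ Z : ℕ, (Pool.Agent.W307.RS.DvS 8 Z).Finite ∧
  ∀ S : Finset (ℤ × ℤ), (S : Set (ℤ × ℤ)) = Pool.Agent.W307.RS.DvS 8 Z →
    ∑ c ∈ S, (2 : ℝ) ^ Module.finrank ℤ (Sh c.1 c.2).toAffine.Point ≤ C * S.card

theorem maind_of (h1 : S_AVGS) (h2 : S_COV8) (h3 : S_PARD8) (h4 : S_LOW)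
    (hM : Pool.Agent.W307.RS.MDL) : S_MAIND := by
  refine Pool.Agent.W307.RS.finalD_of (k := 48) (d := 24) (by norm_num) rfl h3 hM h4 ?_
  obtain ⟨C, hC, h⟩ := h2 (Pool.Agent.W307.RS.GG M8 N8)
    (Pool.Agent.W307.RS.GG_nonneg M8 N8) h1
  refine ⟨C, hC, fun W hW S hS => h W hW S fun t ht => ?_⟩
  obtain ⟨a1, a2, a3, a4⟩ := hS t ht
  exact ⟨mul_ne_zero (mul_ne_zero a1 a2) (sub_ne_zero.2 a3), a4⟩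

end Pool.Agent.Y723.Z8
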