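import Pool.Agent.Y723.Z8.Fin
import Pool.Agent.Y419.Z8.CntS
import Pool.Agent.Y523.Z8.AVGS
import Pool.Agent.Y37.Z8.LC8
import Pool.Agent.Y845.Z8.Cov
import Pool.Agent.Y804.Z8.PARD8
import Pool.Agent.W554.RS.MDL

/-! Project Z8D: the average of `2 ^ rank` over the curves with a subgroup `Z/2 × Z/8`, ordered by the
minimal discriminant. -/

set_option autoImplicit false

namespace Pool.Agent.Y723.Z8.FinD8

open Pool.Agent.Y723.Z8

/-- **the average over the family, by minimal discriminant** -/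
theorem maind8 : S_MAIND :=
  maind_of (Pool.Agent.Y523.Z8.avgs_of (Pool.Agent.Y419.Z8.cnts_of Chr.chr) Pool.Agent.Y474.Z8.rnk
      (Fin8.mak8 Chr.chr))
    (Pool.Agent.Y845.Z8.cov8_of Pool.Agent.Y37.Z8.lc8)
    (Pool.Agent.Y804.Z8.pard8_of Pool.Agent.W554.RS.mdl) Fin8.low8 Pool.Agent.W554.RS.mdl

end Pool.Agent.Y723.Z8.FinD8
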