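import Mathlib
import Pool.Agent.Y723.Z8.StmD
import Pool.Agent.W307.SE.Fin

/-!
# Project Z8S: 2-Selmer groups and Tate-Shafarevich groups in the families `Z/2 × Z/m`, `m = 4, 6, 8`

The bounds for `2 ^ rank` hold for the order of the 2-Selmer group `SN`, ordered by height and by
the minimal discriminant.
-/

set_option autoImplicit false

namespace Pool.Agent.Y723.Z8

open Finset Pool.Agent.W262.RK Pool.Agent.W307.RT Pool.Agent.TH841.PT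
open Pool.Agent.W307.SE (SN GGg PARX SELD SELC SelR)
open Pool.Agent.W307.RS (DvS mD MDL)

/-- RNKS: the bound of the order of the 2-Selmer group by the local count (as `S_RNK`). -/
def S_RNKS : Prop := ∃ z0 : ℕ, ∀ z, z0 ≤ z → ∃ C0 D : ℝ, 0 ≤ C0 ∧ 1 ≤ D ∧
  ∀ (X y k : ℕ) (a b : ℤ), IsCoprime a b → (∀ j, F8 a b j ≠ 0) → a.natAbs ≤ X → b.natAbs ≤ X →
  1 ≤ X → z < y → X < (y + 1) ^ k →
    SN (-(M8 a b)) (-(N8 a b)) ≤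
      C0 * D ^ k * 4 ^ (∑ i, (S2 z y (pr8 z a b) i).primeFactors.card) *
        NBT cls8 e8 (S1 z y (pr8 z a b))

/-- AVGSS: the average of the order of the 2-Selmer group over a short square (as `S_AVGS`). -/
def S_AVGSS : Prop := ∀ B : ℕ, ∃ C : ℝ, ∀ (N1 N2 : ℤ) (X : ℕ), 1 ≤ X → N1.natAbs ≤ X ^ B →
  N2.natAbs ≤ X ^ B →
    ∑ t ∈ Icc 1 X ×ˢ Icc 1 X, GGg SN M8 N8 (N1 + (t.1 : ℤ), N2 + (t.2 : ℤ)) ≤ C * X ^ 2

/-- PARDX: parametrisation of the curves ordered by the minimal discriminant, with the roots (as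
`PARD`, see `PARX`). -/
def PARDX (m : ℕ) (M N : ℤ → ℤ → ℤ) : Prop :=
  ∃ (C : ℕ) (F : ℤ × ℤ → ℤ × ℤ), ∀ Z : ℕ, Set.InjOn F (DvS m Z) ∧
    ∀ c ∈ DvS m Z, IsCoprime (F c).1 (F c).2 ∧ M (F c).1 (F c).2 ≠ 0 ∧ N (F c).1 (F c).2 ≠ 0 ∧
      M (F c).1 (F c).2 ≠ N (F c).1 (F c).2 ∧
      (M (F c).1 (F c).2 * N (F c).1 (F c).2 *
        (M (F c).1 (F c).2 - N (F c).1 (F c).2)).natAbs ^ 2 ≤ C * Z ∧
      ∃ (e1 e2 e3 : ℤ) (q : ℚ), q ≠ 0 ∧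
        (∀ x : ℤ, x ^ 3 + c.1 * x + c.2 = (x - e1) * (x - e2) * (x - e3)) ∧
        ((e2 - e1 : ℤ) : ℚ) = -(M (F c).1 (F c).2 : ℚ) * q ^ 2 ∧
        ((e3 - e1 : ℤ) : ℚ) = -(N (F c).1 (F c).2 : ℚ) * q ^ 2

/-- PX4: the parametrisation for `Z/2 × Z/4`, by height and by minimal discriminant. -/
def S_PX4 : Prop := PARX 4 12 M4 N4 ∧ (MDL → PARDX 4 M4 N4)

/-- PX6: the parametrisation for `Z/2 × Z/6`, by height and by minimal discriminant. -/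
def S_PX6 : Prop := PARX 6 24 M6 N6 ∧ (MDL → PARDX 6 M6 N6)

/-- PX8: the parametrisation for `Z/2 × Z/8`, by height and by minimal discriminant. -/
def S_PX8 : Prop := PARX 8 48 M8 N8 ∧ (MDL → PARDX 8 M8 N8)

/-- CD: the curves ordered by the minimal discriminant, from the regions (template `finalD_of` in
`W307/RS/FinalD.lean` and `curves_of` in `W307/SE/Fin.lean`). -/
def S_CD : Prop := ∀ (m k d : ℕ) (M N : ℤ → ℤ → ℤ), 1 ≤ d → k = 2 * d → PARDX m M N → MDL →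
  LOW m k → SELD → SELC →
  (∃ C : ℝ, 0 ≤ C ∧ ∀ W : ℕ, 1 ≤ W → ∀ S : Finset (ℤ × ℤ),
      (∀ t ∈ S, M t.1 t.2 ≠ 0 ∧ N t.1 t.2 ≠ 0 ∧ M t.1 t.2 ≠ N t.1 t.2 ∧
        (M t.1 t.2 * N t.1 t.2 * (M t.1 t.2 - N t.1 t.2)).natAbs ≤ W ^ d) →
      ∑ t ∈ S, GGg SN M N t ≤ C * (W : ℝ) ^ 2) →
  ∃ C : ℝ, ∀ Z : ℕ, (DvS m Z).Finite ∧ (∀ c ∈ DvS m Z, (SelR c.1 c.2).Finite) ∧
    ∀ S : Finset (ℤ × ℤ), (S : Set (ℤ × ℤ)) = DvS m Z →
      ∑ c ∈ S, ((SelR c.1 c.2).ncard : ℝ) ≤ C * S.card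

end Pool.Agent.Y723.Z8
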