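import Pool.Agent.Y723.Z8.StmS
import Pool.Agent.W605.RT.PAR4
import Pool.Agent.W500.RS.PARD4
import Pool.Agent.Y38.Z8.PX8

/-! Project Z8S: the parametrisation for `Z/2 × Z/4` with the roots. -/

set_option autoImplicit false

namespace Pool.Agent.Y723.Z8.S46

open Finset Pool.Agent.W262.RK Pool.Agent.W307.RT Pool.Agent.W307.RS Pool.Agent.W605.RT

theorem px4 : Pool.Agent.Y723.Z8.S_PX4 := by
  refine ⟨⟨54, FF, fun H => ⟨?_, ?_⟩⟩, fun h2 => ⟨6 ^ 12, FF, fun Z => ⟨?_, ?_⟩⟩⟩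
  · intro c hc c' hc' hcc
    rw [Finset.mem_coe] at hc hc'
    simp only [Cv, Finset.mem_filter] at hc hc'
    obtain ⟨-, hD, -, -, hmin, hT⟩ := hc
    obtain ⟨-, hD', -, -, hmin', hT'⟩ := hc'
    have r := FF_rel (core hD hT)
    have r' := FF_rel (core hD' hT')
    change Rel c (FF c) at r
    change Rel c' (FF c') at r'
    rw [← hcc] at r'
    exact rel_unique r r' hmin hmin'
  · intro c hc
    simp only [Cv, Finset.mem_filter] at hc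
    obtain ⟨-, hD, hH, -, hmin, hT⟩ := hc
    have r := FF_rel (core hD hT)
    change Rel c (FF c) at r
    obtain ⟨hb1, hb2⟩ := rel_bound (A := c.1) (B := c.2) r hH
    set ab := FF c with hab
    clear_value ab
    obtain ⟨A, B⟩ := c
    obtain ⟨a, b⟩ := ab
    obtain ⟨g, e, hg, hco, ha0, hb0, hne, he, hA, hB⟩ := r
    change a ≠ 0 at ha0
    change b ≠ 0 at hb0
    change a ^ 2 ≠ b ^ 2 at hne
    change 3 * e = g ^ 2 * (a ^ 2 + b ^ 2) at he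
    change 3 * A = -(g ^ 4 * (a ^ 4 - a ^ 2 * b ^ 2 + b ^ 4)) at hA
    change 27 * B = g ^ 6 * ((a ^ 2 + b ^ 2) * (2 * a ^ 2 - b ^ 2) * (a ^ 2 - 2 * b ^ 2)) at hB
    exact ⟨hco, pow_ne_zero 2 ha0, pow_ne_zero 2 hb0, hne, hb1, hb2,
      Pool.Agent.Y38.Z8.roots8 (M := a ^ 2) (N := b ^ 2) hg he (by rw [hA]; ring) hB⟩
  · rintro c ⟨hD, hmin, hT, -⟩ c' ⟨hD', hmin', hT', -⟩ hcc
    have r := FF_rel (core hD hT)
    have r' := FF_rel (core hD' hT')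
    change Rel c (FF c) at r
    change Rel c' (FF c') at r'
    rw [← hcc] at r'
    exact rel_unique r r' hmin hmin'
  · rintro c ⟨hD, hmin, hT, hZ⟩
    have r := FF_rel (core hD hT)
    change Rel c (FF c) at r
    set ab := FF c with hab
    clear_value ab
    obtain ⟨A, B⟩ := c
    obtain ⟨a, b⟩ := ab
    obtain ⟨g, e, hg, hco, ha0, hb0, hne, he, hA, hB⟩ := r
    change a ≠ 0 at ha0
    change b ≠ 0 at hb0
    change a ^ 2 ≠ b ^ 2 at hne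
    change 3 * e = g ^ 2 * (a ^ 2 + b ^ 2) at he
    change 3 * A = -(g ^ 4 * (a ^ 4 - a ^ 2 * b ^ 2 + b ^ 4)) at hA
    change 27 * B = g ^ 6 * ((a ^ 2 + b ^ 2) * (2 * a ^ 2 - b ^ 2) * (a ^ 2 - 2 * b ^ 2)) at hB
    refine ⟨hco, pow_ne_zero 2 ha0, pow_ne_zero 2 hb0, hne, ?_,
      Pool.Agent.Y38.Z8.roots8 (M := a ^ 2) (N := b ^ 2) hg he (by rw [hA]; ring) hB⟩
    have h3 := (h2 A B hD hmin).1
    change mD (Sh A B) ≤ Z at hZ
    change (a ^ 2 * b ^ 2 * (a ^ 2 - b ^ 2)).natAbs ^ 2 ≤ 6 ^ 12 * Z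
    have h4 := Pool.Agent.W500.RS.disc_id hA hB
    have h5 : (16 * (4 * A ^ 3 + 27 * B ^ 2)).natAbs =
        16 * (g.natAbs ^ 12 * (a ^ 2 * b ^ 2 * (a ^ 2 - b ^ 2)).natAbs ^ 2) := by
      rw [h4, Int.natAbs_mul, Int.natAbs_neg, Int.natAbs_mul, Int.natAbs_pow, Int.natAbs_pow]
      rfl
    have h6 : 1 ≤ g.natAbs ^ 12 := Nat.one_le_pow _ _ (Int.natAbs_pos.mpr hg.ne')
    have h7 : (a ^ 2 * b ^ 2 * (a ^ 2 - b ^ 2)).natAbs ^ 2 ≤
        g.natAbs ^ 12 * (a ^ 2 * b ^ 2 * (a ^ 2 - b ^ 2)).natAbs ^ 2 :=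
      Nat.le_mul_of_pos_left _ h6
    have h8 : 6 ^ 12 * mD (Sh A B) ≤ 6 ^ 12 * Z := Nat.mul_le_mul_left _ hZ
    rw [h5] at h3
    generalize (a ^ 2 * b ^ 2 * (a ^ 2 - b ^ 2)).natAbs ^ 2 = u at *
    generalize g.natAbs ^ 12 * u = w at *
    omega

end Pool.Agent.Y723.Z8.S46
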