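import Mathlib
import Pool.Agent.Y723.Z8.Fin
import Pool.Agent.Y723.Z8.Sel46
import Pool.Agent.Y723.Z8.Px4
import Pool.Agent.Y419.Z8.CntS
import Pool.Agent.Y37.Z8.LC8
import Pool.Agent.Y845.Z8.Cov
import Pool.Agent.Y38.Z8.PX8
import Pool.Agent.Y945.Z8.RNKS
import Pool.Agent.Y383.Z8.AvgS
import Pool.Agent.Y210.Z8.CD
import Pool.Agent.W554.RS.MDL
import Pool.Agent.W29.RT.LOW4
import Pool.Agent.W376.RTL.Low6
import Pool.Agent.W597.SE.SELC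
import Pool.Agent.W701.FK.Find

/-! Project Z8S: the 2-Selmer groups in the families `Z/2 × Z/m`, `m = 4, 8` (and the parts for
`m = 6`), by height and by minimal discriminant. -/

set_option autoImplicit false

namespace Pool.Agent.Y723.Z8.FinS8

open Finset Pool.Agent.Y723.Z8 Pool.Agent.Y723.Z8.S46
open Pool.Agent.W307.RT (Cv M4 N4 M6 N6)
open Pool.Agent.W307.SE (SN GGg GGg_nonneg SN_nonneg SelR curves_of box_of)
open Pool.Agent.W307.RS (DvS)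

theorem sq8 : Sq M8 N8 :=
  Pool.Agent.Y383.Z8.avgss_of (Pool.Agent.Y419.Z8.cnts_of Chr.chr) Pool.Agent.Y945.Z8.rnks
    (Fin8.mak8 Chr.chr)

theorem rg8 : Rg 24 M8 N8 := by
  obtain ⟨C, hC, h⟩ := Pool.Agent.Y845.Z8.cov8_of Pool.Agent.Y37.Z8.lc8 (GGg SN M8 N8)
    (GGg_nonneg SN_nonneg M8 N8) sq8
  refine ⟨C, hC, fun W hW S hS => h W hW S fun t ht => ?_⟩
  obtain ⟨a1, a2, a3, a4⟩ := hS t ht
  exact ⟨mul_ne_zero (mul_ne_zero a1 a2) (sub_ne_zero.2 a3), a4⟩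

/-- the average of the order of the 2-Selmer group, by minimal discriminant -/
def SelD (m : ℕ) : Prop := ∃ C : ℝ, ∀ Z : ℕ, (DvS m Z).Finite ∧
  (∀ c ∈ DvS m Z, (SelR c.1 c.2).Finite) ∧
  ∀ S : Finset (ℤ × ℤ), (S : Set (ℤ × ℤ)) = DvS m Z →
    ∑ c ∈ S, ((SelR c.1 c.2).ncard : ℝ) ≤ C * S.card

/-- the average of the order of the 2-Selmer group, by height -/
def SelH (m : ℕ) : Prop := ∃ C : ℝ, ∀ H : ℕ, (∀ c ∈ Cv m H, (SelR c.1 c.2).Finite) ∧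
  ∑ c ∈ Cv m H, ((SelR c.1 c.2).ncard : ℝ) ≤ C * (Cv m H).card

theorem seld4 : SelD 4 :=
  Pool.Agent.Y210.Z8.cd 4 12 6 M4 N4 (by norm_num) rfl (px4.2 Pool.Agent.W554.RS.mdl)
    Pool.Agent.W554.RS.mdl Pool.Agent.W29.RT.low4 Pool.Agent.W701.FK.seld' Pool.Agent.W597.SE.selc rg4

theorem seld6_of (h : S_PX6) : SelD 6 :=
  Pool.Agent.Y210.Z8.cd 6 24 12 M6 N6 (by norm_num) rfl (h.2 Pool.Agent.W554.RS.mdl)
    Pool.Agent.W554.RS.mdl Pool.Agent.W376.RTL.low6 Pool.Agent.W701.FK.seld'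
    Pool.Agent.W597.SE.selc rg6

theorem seld8 : SelD 8 :=
  Pool.Agent.Y210.Z8.cd 8 48 24 M8 N8 (by norm_num) rfl
    (Pool.Agent.Y38.Z8.px8.2 Pool.Agent.W554.RS.mdl) Pool.Agent.W554.RS.mdl Fin8.low8
    Pool.Agent.W701.FK.seld' Pool.Agent.W597.SE.selc rg8

theorem selh4 : SelH 4 :=
  curves_of (k := 12) (by norm_num) px4.1 Pool.Agent.W29.RT.low4 Pool.Agent.W701.FK.seld'
    Pool.Agent.W597.SE.selc (box_of sq4)

theorem selh6_of (h : S_PX6) : SelH 6 :=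
  curves_of (k := 24) (by norm_num) h.1 Pool.Agent.W376.RTL.low6 Pool.Agent.W701.FK.seld'
    Pool.Agent.W597.SE.selc (box_of sq6)

theorem selh8 : SelH 8 :=
  curves_of (k := 48) (by norm_num) Pool.Agent.Y38.Z8.px8.1 Fin8.low8 Pool.Agent.W701.FK.seld'
    Pool.Agent.W597.SE.selc (box_of sq8)

end Pool.Agent.Y723.Z8.FinS8
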