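import Mathlib
import Pool.Agent.Y723.Z8.FinS
import Pool.Agent.Y606.Z8.PX6
import Pool.Agent.TH841.SH.Wt
import Pool.Agent.W307.RT.Tors

/-! Project Z8S: the Tate-Shafarevich groups in the families `Z/2 × Z/m`, `m = 4, 6, 8`. -/

set_option autoImplicit false

namespace Pool.Agent.Y723.Z8.ShaN

open Finset Filter Pool.Agent.Y723.Z8 Pool.Agent.Y723.Z8.FinS8
open Pool.Agent.W307.RT (Cv Sh M4 N4 M6 N6 LOW)
open Pool.Agent.W307.SE (SelR PARX)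
open Pool.Agent.W307.RS (DvS)
open Pool.Agent.TH841.SH.D (ShaTor HasDiv rk)
open Pool.Agent.TH841.SH (wt Bd bd_selR family)

open Classical in
/-- the bounds for a finite family of curves -/
def Bnd (C : ℝ) (S : Finset (ℤ × ℤ)) : Prop :=
  (∀ c ∈ S, ∀ k : ℕ, Finite (ShaTor (Sh c.1 c.2) (2 ^ k))) ∧
  (∀ k : ℕ, 1 ≤ k → ∑ c ∈ S, wt (Sh c.1 c.2) k ≤ C * S.card) ∧
  ∀ r δ : ℕ, ((S.filter (fun c => r ≤ rk (Sh c.1 c.2) ∧ HasDiv (Sh c.1 c.2) δ)).card : ℝ) ≤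
    C * S.card / 2 ^ (r + δ)

lemma bnd_of {C : ℝ} {S : Finset (ℤ × ℤ)} (h0 : ∀ c ∈ S, 4 * c.1 ^ 3 + 27 * c.2 ^ 2 ≠ 0)
    (h1 : ∀ c ∈ S, ∃ e1 e2 e3 : ℤ, ∀ x : ℤ, x ^ 3 + c.1 * x + c.2 = (x - e1) * (x - e2) * (x - e3))
    (h2 : ∀ c ∈ S, (SelR c.1 c.2).Finite)
    (h3 : ∑ c ∈ S, ((SelR c.1 c.2).ncard : ℝ) ≤ C * S.card) : Bnd C S := by
  classical
  have hbd : ∀ c ∈ S, Bd (Sh c.1 c.2) ((SelR c.1 c.2).ncard : ℝ) := by
    intro c hc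
    obtain ⟨e1, e2, e3, he⟩ := h1 c hc
    exact bd_selR (h0 c hc) he (h2 c hc)
  obtain ⟨k1, k2, k3⟩ := family S (fun c => Sh c.1 c.2) _ (C * S.card) 1 hbd
    (by simpa only [pow_one] using h3)
  refine ⟨k1, fun k hk => by simpa only [pow_one] using k2 k hk, fun r δ => ?_⟩
  have := k3 r δ
  rw [one_mul] at this
  convert this

theorem shaD_of {m : ℕ} {M N : ℤ → ℤ → ℤ} (hP : PARDX m M N) (hS : SelD m) :
    ∃ C : ℝ, ∀ Z : ℕ, (DvS m Z).Finite ∧ ∀ S : Finset (ℤ × ℤ), (S : Set (ℤ × ℤ)) = DvS m Z →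
      Bnd C S := by
  obtain ⟨C, hC⟩ := hS
  obtain ⟨C0, F, hF⟩ := hP
  refine ⟨C, fun Z => ⟨(hC Z).1, fun S hSZ => ?_⟩⟩
  have hm : ∀ c ∈ S, c ∈ DvS m Z := fun c hc => by rw [← hSZ]; exact hc
  refine bnd_of (fun c hc => (hm c hc).1) (fun c hc => ?_) (fun c hc => (hC Z).2.1 c (hm c hc))
    ((hC Z).2.2 S hSZ)
  obtain ⟨-, -, -, -, -, e1, e2, e3, -, -, he, -, -⟩ := (hF Z).2 c (hm c hc)
  exact ⟨e1, e2, e3, he⟩

theorem shaH_of {m k : ℕ} {M N : ℤ → ℤ → ℤ} (hP : PARX m k M N) (hS : SelH m) :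
    ∃ C : ℝ, ∀ H : ℕ, Bnd C (Cv m H) := by
  classical
  obtain ⟨C, hC⟩ := hS
  obtain ⟨C0, F, hF⟩ := hP
  refine ⟨C, fun H => bnd_of (fun c hc => ?_) (fun c hc => ?_) (fun c hc => (hC H).1 c hc)
    (hC H).2⟩
  · unfold Cv at hc
    exact (mem_filter.1 hc).2.1
  · obtain ⟨-, -, -, -, -, -, e1, e2, e3, -, -, he, -, -⟩ := (hF H).2 c hc
    exact ⟨e1, e2, e3, he⟩

/-- by minimal discriminant -/
theorem shaD {m : ℕ} (hm : m = 4 ∨ m = 6 ∨ m = 8) :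
    ∃ C : ℝ, ∀ Z : ℕ, (DvS m Z).Finite ∧ ∀ S : Finset (ℤ × ℤ), (S : Set (ℤ × ℤ)) = DvS m Z →
      Bnd C S := by
  rcases hm with rfl | rfl | rfl
  · exact shaD_of (S46.px4.2 Pool.Agent.W554.RS.mdl) seld4
  · exact shaD_of (Pool.Agent.Y606.Z8.px6.2 Pool.Agent.W554.RS.mdl)
      (seld6_of Pool.Agent.Y606.Z8.px6)
  · exact shaD_of (Pool.Agent.Y38.Z8.px8.2 Pool.Agent.W554.RS.mdl) seld8

/-- by height -/
theorem shaH {m : ℕ} (hm : m = 4 ∨ m = 6 ∨ m = 8) : ∃ C : ℝ, ∀ H : ℕ, Bnd C (Cv m H) := by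
  rcases hm with rfl | rfl | rfl
  · exact shaH_of S46.px4.1 selh4
  · exact shaH_of Pool.Agent.Y606.Z8.px6.1 (selh6_of Pool.Agent.Y606.Z8.px6)
  · exact shaH_of Pool.Agent.Y38.Z8.px8.1 selh8

/-- the families are infinite, by height -/
theorem tendstoH {m : ℕ} (hm : m = 4 ∨ m = 6 ∨ m = 8) :
    Tendsto (fun H : ℕ => (Cv m H).card) atTop atTop := by
  rcases hm with rfl | rfl | rfl
  · exact Pool.Agent.W307.RT.tendsto_of_low Pool.Agent.W29.RT.low4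
  · exact Pool.Agent.W307.RT.tendsto_of_low Pool.Agent.W376.RTL.low6
  · exact Pool.Agent.W307.RT.tendsto_of_low Fin8.low8

/-- the families are infinite, by minimal discriminant -/
theorem tendstoD {m : ℕ} (hm : m = 4 ∨ m = 6 ∨ m = 8) :
    Tendsto (fun Z : ℕ => (DvS m Z).ncard) atTop atTop := by
  obtain ⟨C, hC⟩ := shaD hm
  have h2 : Tendsto (fun Z : ℕ => (Cv m (Z / 32)).card) atTop atTop :=
    (tendstoH hm).comp (Nat.tendsto_div_const_atTop (by norm_num))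
  refine tendsto_atTop_mono (fun Z => ?_) h2
  rw [← Set.ncard_coe_finset]
  exact Set.ncard_le_ncard (Pool.Agent.W307.RS.Cv_sub Pool.Agent.W554.RS.mdl m (Z / 32) Z
    (Nat.mul_div_le Z 32)) (hC Z).1

/-- `Ш` only -/
lemma Bnd.sha {C : ℝ} {S : Finset (ℤ × ℤ)} (h : Bnd C S) {k : ℕ} (hk : 1 ≤ k) :
    ∑ c ∈ S, (Nat.card (ShaTor (Sh c.1 c.2) (2 ^ k)) : ℝ) ^ ((1 : ℝ) / k) ≤ C * S.card := by
  refine le_trans (sum_le_sum fun c _ => ?_) (h.2.1 k hk)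
  unfold wt
  have h1 : (1 : ℝ) ≤ (2 : ℝ) ^ rk (Sh c.1 c.2) := one_le_pow₀ (by norm_num)
  exact le_mul_of_one_le_left (by positivity) h1

open Classical in
lemma Bnd.div {C : ℝ} {S : Finset (ℤ × ℤ)} (h : Bnd C S) (δ : ℕ) :
    ((S.filter (fun c => HasDiv (Sh c.1 c.2) δ)).card : ℝ) ≤ C * S.card / 2 ^ δ := by
  have := h.2.2 0 δ
  rw [zero_add] at this
  refine le_trans (le_of_eq ?_) this
  congr 2
  apply filter_congr
  intro c _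
  exact ⟨fun h => ⟨Nat.zero_le _, h⟩, fun h => h.2⟩

end Pool.Agent.Y723.Z8.ShaN
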